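import Pool.Agent.Helper87.Birk.Kap

/-!
# Bounded witnesses for membership in `ℍℙ(C₀)` and `ℍℙ𝕊(C₀)`
-/

set_option autoImplicit false

namespace Pool.Agent.Helper87.Birk

/-- A bounded witness for `S ∈ ℍℙ(Φ)`. -/
def Wit (Φ : SgClass) (S : Type) [Semigroup S] (b k : ℕ) : Prop :=
  ∃ (I : Type) (W : I → Type) (hW : ∀ i, Semigroup (W i)) (γ : ∀ i, Fin k → W i)
    (φ : (∀ i, W i) →ₙ* S), (∀ i, Finite (W i)) ∧ (∀ i, Nat.card (W i) < b) ∧
      (∀ i, Φ (W i) (hW i) ∨ Subsingleton (W i)) ∧ ∀ s, ∃ x, φ (fun i => γ i x) = s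

/-- the null semigroup on `Option S` -/
def NullS (S : Type) : Type := Option S

instance (S : Type) : Semigroup (NullS S) where
  mul _ _ := (none : Option S)
  mul_assoc _ _ _ := rfl

instance (S : Type) [Finite S] : Finite (NullS S) := by unfold NullS; infer_instance

theorem NullS.mul_eq {S : Type} (a b : NullS S) : a * b = (none : Option S) := rfl

theorem nullS_mem (S : Type) [Finite S] : OpH (OpS C0) (NullS S) inferInstance := by
  have : Nonempty (NullS S) := ⟨(none : Option S)⟩
  refine Cert.opHS (g := (id : NullS S → NullS S)) (E := fun _ _ => False)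
    (R := fun _ _ => False) (P := fun x w => w = x) ⟨?_, ?_, ?_, ?_, ?_, ?_⟩ ?_
  · intro _ _ h; exact h
  · intro _ _ _ h _; exact h
  · intro x; rfl
  · intro _ _ _ h _; exact h.elim
  · intro _ _ _ _ h _ _ _ _; exact h.elim
  · right
    exact ⟨(none : Option S), fun w => ⟨rfl, rfl⟩, fun x y _ => rfl⟩
  · rw [Set.range_id]
    exact Subsemigroup.closure_univ

/-- the quotient map of a congruence as a semigroup homomorphism -/
def quotHom {U : Type} [Semigroup U] (c : Con U) : U →ₙ* c.Quotient where
  toFun x := (x : c.Quotient)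
  map_mul' _ _ := rfl

theorem quotHom_surjective {U : Type} [Semigroup U] (c : Con U) :
    Function.Surjective (quotHom c) := by
  intro y
  induction y using Con.induction_on with
  | H x => exact ⟨x, rfl⟩

/-- the number of elements allowed in the quotients -/
def bB (m : ℕ) : ℕ := (m * (m + 1) + 1) ^ (m * (m + 1) + 1)

/-- bound for the sizes of the factors, with `k` generators -/
def bN (m k : ℕ) : ℕ := (bB m) ^ ((((bB m) ^ (bB m)) ^ (bB m)) * (bB m) ^ k) + m + 2

theorem bB_pos (m : ℕ) : 0 < bB m := Nat.pow_pos (Nat.succ_pos _)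

/-- closure of the coordinates of a family of preimages -/
theorem closure_coe_top {T X : Type} [Semigroup T] (g : X → T) :
    Subsemigroup.closure (Set.range (fun s => (⟨g s, Subsemigroup.subset_closure ⟨s, rfl⟩⟩ :
      Subsemigroup.closure (Set.range g)))) = ⊤ := by
  have := Subsemigroup.closure_closure_coe_preimage (M := T) (s := Set.range g)
  rw [← this]
  congr 1
  ext ⟨x, hx⟩
  simp only [Set.mem_range, Set.mem_preimage, Subtype.mk.injEq]

theorem exists_wit_HPS {S : Type} [hS : Semigroup S] [Finite S]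
    (h : OpH (OpP (OpS C0)) S hS) :
    Wit (OpH (OpS C0)) S (bN (Nat.card S) (Nat.card S)) (Nat.card S) := by
  classical
  obtain ⟨V, hV, ⟨n, T, hT, hΦ, ⟨e⟩⟩, f, hf⟩ := h
  set φ0 : (∀ i, T i) →ₙ* S := f.comp (e.symm : (∀ i, T i) →ₙ* V) with hφ0
  have hφ0s : Function.Surjective φ0 := hf.comp e.symm.surjective
  choose hat hhat using hφ0s
  set U : ∀ i, Subsemigroup (T i) := fun i => Subsemigroup.closure (Set.range fun s => hat s i)
    with hU
  set γ0 : ∀ i, S → U i := fun i s => ⟨hat s i, Subsemigroup.subset_closure ⟨s, rfl⟩⟩ with hγ0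
  have hgen : ∀ i, Subsemigroup.closure (Set.range (γ0 i)) = ⊤ := by
    intro i
    exact closure_coe_top (fun s => hat s i)
  set φ1 : (∀ i, U i) →ₙ* S := ⟨fun v => φ0 (fun i => (v i : T i)), fun v w => by
    rw [← map_mul]; rfl⟩ with hφ1
  have hφ1g : ∀ s, φ1 (fun i => γ0 i s) = s := fun s => hhat s
  set m := Nat.card S with hm
  set B := bB m with hB
  -- the representatives
  have hrep : ∀ v : (NullS S) × (∀ i, (kapCon B (U i)).Quotient), ∃ u : ∀ i, U i,
      (∀ i, ((u i : U i) : (kapCon B (U i)).Quotient) = v.2 i) ∧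
      (∀ s : S, v.1 = (some s : Option S) →
        (∀ i, v.2 i = ((γ0 i s : U i) : (kapCon B (U i)).Quotient)) → u = fun i => γ0 i s) ∧
      (v.1 = (none : Option S) → (∃ u' : ∀ i, U i,
        (∀ i, ((u' i : U i) : (kapCon B (U i)).Quotient) = v.2 i) ∧
          ∀ i, ∃ p q, u' i = p * q) → ∀ i, ∃ p q, u i = p * q) := by
    rintro ⟨a, v⟩
    have hany : ∃ u : ∀ i, U i, ∀ i, ((u i : U i) : (kapCon B (U i)).Quotient) = v i := by
      choose u hu using fun i => quotHom_surjective (kapCon B (U i)) (v i)
      exact ⟨u, hu⟩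
    rcases a with _ | s
    · by_cases hd : ∃ u' : ∀ i, U i, (∀ i, ((u' i : U i) : (kapCon B (U i)).Quotient) = v i) ∧
          ∀ i, ∃ p q, u' i = p * q
      · obtain ⟨u', hu', hu''⟩ := hd
        refine ⟨u', hu', ?_, fun _ _ => hu''⟩
        intro s hs; cases hs
      · obtain ⟨u, hu⟩ := hany
        refine ⟨u, hu, ?_, fun _ hd' => absurd hd' hd⟩
        intro s hs; cases hs
    · by_cases hs : ∀ i, v i = ((γ0 i s : U i) : (kapCon B (U i)).Quotient)
      · refine ⟨fun i => γ0 i s, fun i => (hs i).symm, ?_, ?_⟩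
        · intro s' hs' _
          have : s = s' := Option.some.inj hs'
          subst this; rfl
        · intro h0; cases h0
      · obtain ⟨u, hu⟩ := hany
        refine ⟨u, hu, ?_, ?_⟩
        · intro s' hs' h'
          have : s = s' := Option.some.inj hs'
          subst this
          exact absurd h' hs
        · intro h0; cases h0
  choose rep hrep1 hrep2 hrep3 using hrep
  have hkap : ∀ u u' : ∀ i, U i, (∀ i, ∃ p q, u i = p * q) → (∀ i, ∃ p q, u' i = p * q) →
      (∀ i, ((u i : U i) : (kapCon B (U i)).Quotient) = (u' i : U i)) → φ1 u = φ1 u' := by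
    intro u u' hu hu' heq
    exact kap_prod φ1 B le_rfl u u' hu hu' (fun i => ((kapCon B (U i)).eq).mp (heq i))
  -- the family of factors
  let W : Option (Fin (n + 1)) → Type := fun o =>
    match o with
    | none => NullS S
    | some i => (kapCon B (U i)).Quotient
  let hW : ∀ o, Semigroup (W o) := fun o =>
    match o with
    | none => (inferInstance : Semigroup (NullS S))
    | some i => (inferInstance : Semigroup (kapCon B (U i)).Quotient)
  let pr : (∀ o, W o) → (NullS S) × (∀ i, (kapCon B (U i)).Quotient) :=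
    fun v => (v none, fun i => v (some i))
  let φ : (∀ o, W o) →ₙ* S := ⟨fun v => φ1 (rep (pr v)), by
    intro v w
    rw [← map_mul]
    have h1 : ∀ i, ((((rep (pr v)) * (rep (pr w))) i : U i) : (kapCon B (U i)).Quotient) =
        (pr (v * w)).2 i := by
      intro i
      have e1 := hrep1 (pr v) i
      have e2 := hrep1 (pr w) i
      have e3 : ((((rep (pr v)) * (rep (pr w))) i : U i) : (kapCon B (U i)).Quotient) =
        ((rep (pr v) i : U i) : (kapCon B (U i)).Quotient) * ((rep (pr w) i : U i) :
          (kapCon B (U i)).Quotient) := rfl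
      rw [e3, e1, e2]
      rfl
    have h2 : ∀ i, ∃ p q, ((rep (pr v)) * (rep (pr w))) i = p * q := fun i => ⟨_, _, rfl⟩
    apply hkap
    · exact hrep3 (pr (v * w)) rfl ⟨_, h1, h2⟩
    · exact h2
    · intro i
      rw [hrep1 (pr (v * w)) i, h1 i]⟩
  let γ : ∀ o, Fin m → W o := fun o =>
    match o with
    | none => fun x => (some ((Finite.equivFin S).symm x) : Option S)
    | some i => fun x => ((γ0 i ((Finite.equivFin S).symm x) : U i) : (kapCon B (U i)).Quotient)
  have hcard : ∀ i, Finite (kapCon B (U i)).Quotient ∧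
      Nat.card (kapCon B (U i)).Quotient ≤ B ^ (((B ^ B) ^ B) * B ^ m) := fun i =>
    card_kap_le (γ0 i) (hgen i) B (bB_pos m)
  refine ⟨Option (Fin (n + 1)), W, hW, γ, φ, ?_, ?_, ?_, ?_⟩
  · intro o
    rcases o with _ | i
    · exact (inferInstance : Finite (NullS S))
    · exact (hcard i).1
  · intro o
    rcases o with _ | i
    · have h1 : Nat.card (NullS S) = m + 1 := Finite.card_option
      show Nat.card (NullS S) < _
      rw [h1]; unfold bN; omega
    · have := (hcard i).2
      show Nat.card (kapCon B (U i)).Quotient < _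
      unfold bN
      rw [← hB]
      omega
  · intro o
    left
    rcases o with _ | i
    · exact nullS_mem S
    · refine ⟨U i, inferInstance, ⟨?_, ?_⟩, quotHom _, quotHom_surjective _⟩
      · have hSn : Nonempty S := by
          obtain ⟨h1, _⟩ := hΦ i
          obtain ⟨t⟩ := h1
          have hne : ∀ i, Nonempty (T i) := fun i => (hΦ i).1
          exact ⟨φ0 (fun i => (hne i).some)⟩
        obtain ⟨s⟩ := hSn
        exact ⟨γ0 i s⟩
      · obtain ⟨_, T', hT', hC, ι, hι⟩ := hΦ i
        exact ⟨T', hT', hC, ι.comp (MulMemClass.subtype (U i)),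
          hι.comp Subtype.val_injective⟩
  · intro s
    refine ⟨Finite.equivFin S s, ?_⟩
    have hφapp : ∀ v, φ v = φ1 (rep (pr v)) := fun v => rfl
    rw [hφapp]
    have h1 : rep (pr (fun i => γ i ((Finite.equivFin S) s))) = fun i => γ0 i s := by
      apply hrep2
      · show (some ((Finite.equivFin S).symm (Finite.equivFin S s)) : Option S) = some s
        rw [Equiv.symm_apply_apply]
      · intro i
        show ((γ0 i ((Finite.equivFin S).symm (Finite.equivFin S s)) : U i) :
          (kapCon B (U i)).Quotient) = _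
        rw [Equiv.symm_apply_apply]
    rw [h1, hφ1g]

end Pool.Agent.Helper87.Birk
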