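import Pool.Agent.Helper87.Birk.Bd

/-!
# Bounded witness for `ℍℙ(C₀)`
-/

set_option autoImplicit false

namespace Pool.Agent.Helper87.Birk

namespace ZS

variable {T : Type} [Semigroup T] {z : T}

theorem exists_mid (h : ZS z) {u w : T} (hu : u ≠ z) (hw : w ≠ z) : ∃ b, u * b * w ≠ z := by
  by_contra hcon
  push Not at hcon
  obtain ⟨x, y, hxy⟩ := h.nt
  obtain ⟨p, q, rfl⟩ := h.div u hu x
  obtain ⟨p', q', rfl⟩ := h.div w hw y
  apply hxy
  calc p * u * q * (p' * w * q') = p * (u * (q * p') * w) * q' := by simp only [mul_assoc]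
    _ = z := by rw [hcon, h.zr, h.zl]

/-- index set of the generators of a `0`-simple subsemigroup containing a given family -/
abbrev GenIx (A : Type) : Type := Option (Option A ⊕ Option A × Option A)

/-- Every family of elements is contained in a `0`-simple subsemigroup with few generators. -/
theorem exists_sub (h : ZS z) [Finite T] {A : Type} (a : A → T) :
    ∃ g : GenIx A → T, (∀ x, g (some (Sum.inl (some x))) = a x) ∧
      ∃ z' : Subsemigroup.closure (Set.range g), ZS z' := by
  classical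
  obtain ⟨x0, y0, hxy0⟩ := h.nt
  set a' : Option A → T := fun o => o.elim (x0 * y0) a with ha'
  have hb : ∀ p q : Option A, ∃ b, (a' p ≠ z → a' q ≠ z → a' p * b * a' q ≠ z) ∧
      (b ≠ z → a' p ≠ z ∧ a' q ≠ z) := by
    intro p q
    by_cases hp : a' p ≠ z
    · by_cases hq : a' q ≠ z
      · obtain ⟨b, hb⟩ := h.exists_mid hp hq
        exact ⟨b, fun _ _ => hb, fun _ => ⟨hp, hq⟩⟩
      · exact ⟨z, fun _ hq' => absurd hq' hq, fun hz => absurd rfl hz⟩
    · exact ⟨z, fun hp' => absurd hp' hp, fun hz => absurd rfl hz⟩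
  choose b hb1 hb2 using hb
  set g : GenIx A → T := fun o => o.elim z (fun s => Sum.elim a' (fun pq => b pq.1 pq.2) s) with hg
  have hgz : g none = z := rfl
  have hgl : ∀ p, g (some (Sum.inl p)) = a' p := fun p => rfl
  have hgr : ∀ p q, g (some (Sum.inr (p, q))) = b p q := fun p q => rfl
  set C := Subsemigroup.closure (Set.range g) with hC
  have hmem : ∀ x, g x ∈ C := fun x => Subsemigroup.subset_closure ⟨x, rfl⟩
  have ha'mem : ∀ p, a' p ∈ C := fun p => hmem (some (Sum.inl p))
  have hbmem : ∀ p q, b p q ∈ C := fun p q => hmem (some (Sum.inr (p, q)))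
  -- middle elements for generators
  have hba : ∀ p q, b p q ≠ z → b p q * a' q ≠ z := by
    intro p q hpq
    obtain ⟨h1, h2⟩ := hb2 p q hpq
    intro h0
    apply hb1 p q h1 h2
    rw [mul_assoc, h0, h.zr]
  have hab : ∀ p q, b p q ≠ z → a' p * b p q ≠ z := by
    intro p q hpq
    obtain ⟨h1, h2⟩ := hb2 p q hpq
    intro h0
    apply hb1 p q h1 h2
    rw [h0, h.zl]
  have hgen : ∀ s t : GenIx A, g s ≠ z → g t ≠ z → ∃ c ∈ C, g s * c * g t ≠ z := by
    intro s t hs ht
    rcases s with _ | p | ⟨p, q⟩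
    · exact absurd hgz hs
    · rw [hgl] at hs ⊢
      rcases t with _ | r | ⟨r, t⟩
      · exact absurd hgz ht
      · rw [hgl] at ht ⊢
        exact ⟨b p r, hbmem _ _, hb1 p r hs ht⟩
      · rw [hgr] at ht ⊢
        obtain ⟨h1, h2⟩ := hb2 r t ht
        refine ⟨b p r * a' r, C.mul_mem (hbmem _ _) (ha'mem _), ?_⟩
        have h3 := h.cat (hb1 p r hs h1) (hab r t ht)
        simpa only [mul_assoc] using h3
    · rw [hgr] at hs ⊢
      obtain ⟨h1, h2⟩ := hb2 p q hs
      rcases t with _ | r | ⟨r, t⟩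
      · exact absurd hgz ht
      · rw [hgl] at ht ⊢
        refine ⟨a' q * b q r, C.mul_mem (ha'mem _) (hbmem _ _), ?_⟩
        have h3 : a' q * (b q r * a' r) ≠ z := by
          rw [← mul_assoc]; exact hb1 q r h2 ht
        have h4 := h.cat (hba p q hs) h3
        simpa only [mul_assoc] using h4
      · rw [hgr] at ht ⊢
        obtain ⟨h5, h6⟩ := hb2 r t ht
        refine ⟨a' q * b q r * a' r, C.mul_mem (C.mul_mem (ha'mem _) (hbmem _ _)) (ha'mem _), ?_⟩
        have h3 : a' q * (b q r * a' r) ≠ z := by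
          rw [← mul_assoc]; exact hb1 q r h2 h5
        have h4 := h.cat (hba p q hs) h3
        have h7 : b p q * (a' q * (b q r)) * a' r ≠ z := by simpa only [mul_assoc] using h4
        have h8 := h.cat h7 (hab r t ht)
        simpa only [mul_assoc] using h8
  -- first and last generators
  have hfl : ∀ x ∈ C, x ≠ z → (∃ s, x = g s ∨ ∃ x', x = g s * x') ∧
      (∃ s, x = g s ∨ ∃ x', x = x' * g s) := by
    intro x hx
    induction hx using Subsemigroup.closure_induction with
    | mem x hx =>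
      obtain ⟨s, rfl⟩ := hx
      exact fun _ => ⟨⟨s, Or.inl rfl⟩, ⟨s, Or.inl rfl⟩⟩
    | mul x y _ _ hx hy =>
      intro hxy
      have hx0 : x ≠ z := by rintro rfl; exact hxy (h.zl y)
      have hy0 : y ≠ z := by rintro rfl; exact hxy (h.zr x)
      obtain ⟨⟨s, hs⟩, _⟩ := hx hx0
      obtain ⟨_, ⟨t, ht⟩⟩ := hy hy0
      refine ⟨⟨s, Or.inr ?_⟩, ⟨t, Or.inr ?_⟩⟩
      · rcases hs with rfl | ⟨x', rfl⟩
        · exact ⟨y, rfl⟩
        · exact ⟨x' * y, by rw [mul_assoc]⟩
      · rcases ht with rfl | ⟨y', rfl⟩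
        · exact ⟨x, rfl⟩
        · exact ⟨x * y', by rw [mul_assoc]⟩
  have hmid : ∀ x ∈ C, ∀ y ∈ C, x ≠ z → y ≠ z → ∃ c ∈ C, x * c * y ≠ z := by
    intro x hx y hy hx0 hy0
    obtain ⟨_, ⟨s, hs⟩⟩ := hfl x hx hx0
    obtain ⟨⟨t, ht⟩, _⟩ := hfl y hy hy0
    have hs0 : g s ≠ z := by
      intro h0
      rcases hs with rfl | ⟨x', rfl⟩
      · exact hx0 h0
      · exact hx0 (by rw [h0, h.zr])
    have ht0 : g t ≠ z := by
      intro h0
      rcases ht with rfl | ⟨x', rfl⟩
      · exact hy0 h0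
      · exact hy0 (by rw [h0, h.zl])
    obtain ⟨c, hc, hc0⟩ := hgen s t hs0 ht0
    refine ⟨c, hc, ?_⟩
    have h1 : x * c * g t ≠ z := by
      rcases hs with rfl | ⟨x', rfl⟩
      · exact hc0
      · have : g s * (c * g t) ≠ z := by rwa [← mul_assoc]
        have h2 := h.cat hx0 this
        simpa only [mul_assoc] using h2
    rcases ht with rfl | ⟨y', rfl⟩
    · exact h1
    · have h2 := h.cat h1 hy0
      simpa only [mul_assoc] using h2
  refine ⟨g, fun x => rfl, ⟨z, hmem none⟩, ?_, ?_, ?_, ?_⟩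
  · intro x; exact Subtype.ext (h.zl _)
  · intro x; exact Subtype.ext (h.zr _)
  · have h1 : a' none ≠ z := hxy0
    refine ⟨⟨a' none * b none none, C.mul_mem (ha'mem _) (hbmem _ _)⟩, ⟨a' none, ha'mem _⟩, ?_⟩
    intro h0
    exact hb1 none none h1 h1 (congrArg Subtype.val h0)
  · rintro ⟨x, hx⟩ hx0 ⟨y, hy⟩
    have hx0' : x ≠ z := fun h0 => hx0 (Subtype.ext h0)
    by_cases hy0 : y = z
    · subst hy0
      exact ⟨⟨y, hy⟩, ⟨y, hy⟩, Subtype.ext (by
        show y * x * y = y
        rw [h.zr])⟩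
    · obtain ⟨c, hc, hxcy⟩ := hmid x hx y hy hx0' hy0
      obtain ⟨d, hd, hydx⟩ := hmid y hy x hx hy0 hx0'
      set e := y * d * x * c with he
      have hey : e * y ≠ z := by
        have h1 : x * (c * y) ≠ z := by rwa [← mul_assoc]
        have h2 := h.cat hydx h1
        simpa only [he, mul_assoc] using h2
      have hey' : e * y = y * (d * x * c * y) := by simp only [he, mul_assoc]
      obtain ⟨k, l, hkl, hfkl⟩ := Finite.exists_ne_map_eq_of_infinite
        (fun n : ℕ => (fun t => e * t)^[n + 1] y)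
      wlog hlt : k < l generalizing k l
      · exact this l k hkl.symm hfkl.symm (lt_of_le_of_ne (not_lt.mp hlt) hkl.symm)
      obtain ⟨N, rfl⟩ := Nat.exists_eq_add_of_lt hlt
      have e1 : (fun t => e * t)^[N + 1] y = y := by
        apply h.cancel_iter hey hey' (k := k)
        rw [hfkl]; congr 1; omega
      have hitmem : ∀ n, (fun t => e * t)^[n] y ∈ C := by
        intro n
        induction n with
        | zero => exact hy
        | succ n ih =>
          rw [Function.iterate_succ', Function.comp]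
          exact C.mul_mem (C.mul_mem (C.mul_mem (C.mul_mem hy hd) hx) hc) ih
      refine ⟨⟨y * d, C.mul_mem hy hd⟩, ⟨c * (fun t => e * t)^[N] y, C.mul_mem hc (hitmem N)⟩,
        Subtype.ext ?_⟩
      show y * d * x * (c * (fun t => e * t)^[N] y) = y
      conv_rhs => rw [← e1]
      rw [Function.iterate_succ', Function.comp]
      simp only [he, mul_assoc]

/-- A homomorphic image of a `0`-simple semigroup is `0`-simple or trivial. -/
theorem image (h : ZS z) {W : Type} [Semigroup W] (f : T →ₙ* W) (hf : Function.Surjective f) :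
    IsZeroSimple W ∨ Subsingleton W := by
  by_cases hx : ∃ x, x ≠ z ∧ f x = f z
  · right
    obtain ⟨x, hx, hfx⟩ := hx
    have hall : ∀ w, w = f z := by
      intro w
      obtain ⟨y, rfl⟩ := hf w
      obtain ⟨p, q, rfl⟩ := h.div x hx y
      rw [map_mul, map_mul, hfx, ← map_mul, ← map_mul, h.zr, h.zl]
    exact ⟨fun a b => (hall a).trans (hall b).symm⟩
  · left
    push Not at hx
    rw [isZeroSimple_iff]
    refine ⟨f z, ?_, ?_, ?_, ?_⟩
    · intro w; obtain ⟨y, rfl⟩ := hf w; rw [← map_mul, h.zl]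
    · intro w; obtain ⟨y, rfl⟩ := hf w; rw [← map_mul, h.zr]
    · obtain ⟨x, y, hxy⟩ := h.nt
      exact ⟨f x, f y, by rw [← map_mul]; exact hx _ hxy⟩
    · intro w hw v
      obtain ⟨x, rfl⟩ := hf w
      obtain ⟨y, rfl⟩ := hf v
      have hx0 : x ≠ z := by rintro rfl; exact hw rfl
      obtain ⟨p, q, rfl⟩ := h.div x hx0 y
      exact ⟨f p, f q, by rw [map_mul, map_mul]⟩

theorem decomp (h : ZS z) (x : T) : ∃ p q, x = p * q := by
  obtain ⟨a, b, hab⟩ := h.nt
  obtain ⟨p, q, rfl⟩ := h.div _ hab x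
  exact ⟨p * (a * b), q, rfl⟩

end ZS

/-- number of generators -/
def kC (m : ℕ) : ℕ := (m + 1) + (m + 1) * (m + 1) + 1

theorem card_genIx (A : Type) [Finite A] : Nat.card (ZS.GenIx A) = kC (Nat.card A) := by
  unfold ZS.GenIx kC
  rw [Finite.card_option, Nat.card_sum, Nat.card_prod, Finite.card_option]

theorem exists_wit_HP {S : Type} [hS : Semigroup S] [Finite S] (h : OpH (OpP C0) S hS) :
    Wit C0 S (bN (Nat.card S) (kC (Nat.card S))) (kC (Nat.card S)) := by
  classical
  obtain ⟨V, hV, ⟨n, T, hT, hΦ, ⟨e⟩⟩, f, hf⟩ := h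
  have hfin : ∀ i, Finite (T i) := fun i => (hΦ i).1
  have hzs : ∀ i, ∃ z : T i, ZS z := fun i => isZeroSimple_iff.mp (hΦ i).2
  choose z hz using hzs
  set φ0 : (∀ i, T i) →ₙ* S := f.comp (e.symm : (∀ i, T i) →ₙ* V) with hφ0
  have hφ0s : Function.Surjective φ0 := hf.comp e.symm.surjective
  choose hat hhat using hφ0s
  have hsub := fun i => (hz i).exists_sub (fun s : S => hat s i)
  choose g hg z' hz' using hsub
  set U : ∀ i, Subsemigroup (T i) := fun i => Subsemigroup.closure (Set.range (g i)) with hU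
  set γ0 : ∀ i, ZS.GenIx S → U i := fun i s => ⟨g i s, Subsemigroup.subset_closure ⟨s, rfl⟩⟩
    with hγ0
  have hgen : ∀ i, Subsemigroup.closure (Set.range (γ0 i)) = ⊤ := by
    intro i
    exact closure_coe_top (g i)
  set φ1 : (∀ i, U i) →ₙ* S := ⟨fun v => φ0 (fun i => (v i : T i)), fun v w => by
    rw [← map_mul]; rfl⟩ with hφ1
  have hφ1g : ∀ s, φ1 (fun i => γ0 i (some (Sum.inl (some s)))) = s := by
    intro s
    show φ0 (fun i => g i (some (Sum.inl (some s)))) = s
    rw [← hhat s]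
    congr 1
    funext i
    rw [hg, hhat]
  set m := Nat.card S with hm
  set B := bB m with hB
  have hdec : ∀ i (x : U i), ∃ p q, x = p * q := fun i x => (hz' i).decomp x
  have hkap : ∀ u u' : ∀ i, U i,
      (∀ i, ((u i : U i) : (kapCon B (U i)).Quotient) = (u' i : U i)) → φ1 u = φ1 u' := by
    intro u u' heq
    exact kap_prod φ1 B le_rfl u u' (fun i => hdec i _) (fun i => hdec i _)
      (fun i => ((kapCon B (U i)).eq).mp (heq i))
  choose rep hrep using fun i => quotHom_surjective (kapCon B (U i))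
  have hrep' : ∀ i v, ((rep i v : U i) : (kapCon B (U i)).Quotient) = v := hrep
  let W : Fin (n + 1) → Type := fun i => (kapCon B (U i)).Quotient
  let hW : ∀ i, Semigroup (W i) := fun i =>
    (inferInstance : Semigroup (kapCon B (U i)).Quotient)
  let φ : (∀ i, W i) →ₙ* S := ⟨fun v => φ1 (fun i => rep i (v i)), by
    intro v w
    rw [← map_mul]
    apply hkap
    intro i
    rw [hrep']
    show v i * w i = ((rep i (v i) : U i) : (kapCon B (U i)).Quotient) *
      ((rep i (w i) : U i) : (kapCon B (U i)).Quotient)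
    rw [hrep', hrep']⟩
  have eA : ZS.GenIx S ≃ Fin (kC m) := Finite.equivFinOfCardEq (card_genIx S)
  let γ : ∀ i, Fin (kC m) → W i := fun i x =>
    ((γ0 i (eA.symm x) : U i) : (kapCon B (U i)).Quotient)
  have hcard : ∀ i, Finite (kapCon B (U i)).Quotient ∧
      Nat.card (kapCon B (U i)).Quotient ≤ B ^ (((B ^ B) ^ B) * B ^ (kC m)) := by
    intro i
    have := card_kap_le (γ0 i) (hgen i) B (bB_pos m)
    rw [card_genIx] at this
    exact this
  refine ⟨Fin (n + 1), W, hW, γ, φ, fun i => (hcard i).1, ?_, ?_, ?_⟩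
  · intro i
    have := (hcard i).2
    show Nat.card (kapCon B (U i)).Quotient < _
    unfold bN
    rw [← hB]
    omega
  · intro i
    rcases (hz' i).image (quotHom (kapCon B (U i))) (quotHom_surjective _) with h1 | h1
    · exact Or.inl ⟨(hcard i).1, h1⟩
    · exact Or.inr h1
  · intro s
    refine ⟨eA (some (Sum.inl (some s))), ?_⟩
    have hφapp : ∀ v, φ v = φ1 (fun i => rep i (v i)) := fun v => rfl
    rw [hφapp]
    have h1 : φ1 (fun i => rep i (γ i (eA (some (Sum.inl (some s)))))) =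
        φ1 (fun i => γ0 i (some (Sum.inl (some s)))) := by
      apply hkap
      intro i
      rw [hrep']
      show ((γ0 i (eA.symm (eA (some (Sum.inl (some s))))) : U i) :
        (kapCon B (U i)).Quotient) = _
      rw [Equiv.symm_apply_apply]
    rw [h1, hφ1g]

end Pool.Agent.Helper87.Birk
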