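import Pool.Agent.Helper87.Birk.ZeroSimple

/-!
# A certificate for membership in `ℍ𝕊(C₀)`
-/

set_option autoImplicit false

namespace Pool.Agent.Helper87.Birk

/-- Certificate that the semigroup generated by `g` divides a finite `0`-simple semigroup. -/
structure Cert {W : Type} [Semigroup W] {X : Type} (g : X → W) (E R : X → X → Prop)
    (P : X → W → Prop) : Prop where
  ER : ∀ x y, E x y → R x y
  trans : ∀ x y w, R x y → R y w → R x w
  Pg : ∀ x, P x (g x)
  Pmul : ∀ x y w, E x y → P y w → P x (g x * w)
  inj : ∀ x y w w', E x y → R y x → P y w → P y w' → g x * w = g x * w' → w = w'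
  zero : (∀ x y, E x y) ∨ ∃ z : W, (∀ w, z * w = z ∧ w * z = z) ∧ ∀ x y, ¬ E x y → g x * g y = z

/-- Rees matrix semigroup with zero over `G`, index sets `Option X`, sandwich matrix `q`. -/
def RM (X G : Type) (_q : Option X → Option X → Option G) : Type :=
  Option (Option X × G × Option X)

namespace RM

variable {X G : Type} [Group G] {q : Option X → Option X → Option G}

/-- multiplication of the Rees matrix semigroup -/
def mul (a b : RM X G q) : RM X G q :=
  match a, b with
  | some (i, g, l), some (j, h, m) => (q l j).map fun s => (i, g * s * h, m)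
  | _, _ => none

instance : Semigroup (RM X G q) where
  mul := mul
  mul_assoc a b c := by
    show mul (mul a b) c = mul a (mul b c)
    rcases a with _ | ⟨i, g, l⟩
    · rfl
    rcases b with _ | ⟨j, h, m⟩
    · rfl
    rcases c with _ | ⟨k, e, n⟩
    · simp only [mul]
      cases q l j <;> rfl
    simp only [mul]
    cases h1 : q l j with
    | none =>
      cases h2 : q m k with
      | none => simp
      | some s' => simp [h1]
    | some s =>
      cases h2 : q m k with
      | none => simp [h2]
      | some s' => simp [h1, h2, mul_assoc]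

theorem mul_def (a b : RM X G q) : a * b = mul a b := rfl

theorem zeroSimple (h1 : ∀ i, q none i = some 1) (h2 : ∀ l, q l none = some 1) :
    IsZeroSimple (RM X G q) := by
  rw [isZeroSimple_iff]
  refine ⟨(none : Option _), ?_, ?_, ?_, ?_⟩
  · intro x; rfl
  · intro x; rcases x with _ | ⟨i, g, l⟩ <;> rfl
  · refine ⟨(some (none, 1, none) : Option _), (some (none, 1, none) : Option _), ?_⟩
    rw [mul_def]
    simp only [mul, h1]
    intro h
    cases h
  · intro x hx y
    rcases x with _ | ⟨i, g, l⟩
    · exact absurd rfl hx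
    rcases y with _ | ⟨j, h, m⟩
    · exact ⟨(none : Option _), (none : Option _), rfl⟩
    refine ⟨(some (j, 1, none) : Option _), (some (none, g⁻¹ * h, m) : Option _), ?_⟩
    simp only [mul_def, mul, h1, h2, Option.map_some, one_mul, mul_one]
    simp [mul_inv_cancel_left]

instance [Finite X] [Finite G] : Finite (RM X G q) := by
  unfold RM; infer_instance

end RM

theorem exists_perm_of_injOn {A : Type} [Finite A] (s : Set A) (f : A → A) (hf : Set.InjOn f s) :
    ∃ σ : Equiv.Perm A, ∀ a ∈ s, σ a = f a := by
  classical
  have e : {x // x ∈ s} ≃ {x // x ∈ f '' s} := Equiv.Set.imageOfInjOn f s hf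
  refine ⟨(Equiv.Set.imageOfInjOn f s hf : {x // x ∈ s} ≃ {x // x ∈ f '' s}).extendSubtype, ?_⟩
  intro a ha
  rw [Equiv.extendSubtype_apply_of_mem _ a ha]
  rfl

theorem exists_hom_of_ker {A T W : Type} [Semigroup A] [Semigroup T] [Semigroup W]
    (F : A →ₙ* T) (V : A →ₙ* W) (hV : Function.Surjective V)
    (hker : ∀ a b, F a = F b → V a = V b) :
    ∃ f : (MulHom.srange F) →ₙ* W, Function.Surjective f := by
  classical
  have hch : ∀ u : MulHom.srange F, ∃ a, F a = u := fun u => u.2
  choose c hc using hch
  refine ⟨⟨fun u => V (c u), ?_⟩, ?_⟩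
  · intro u v
    rw [← map_mul]
    apply hker
    rw [map_mul, hc, hc, hc]
    rfl
  · intro w
    obtain ⟨a, ha⟩ := hV w
    refine ⟨⟨F a, ⟨a, rfl⟩⟩, ?_⟩
    show V (c _) = w
    rw [← ha]
    apply hker
    rw [hc]

/-- The certificate implies membership in `ℍ𝕊(C₀)`. -/
theorem Cert.opHS {W X : Type} [hW : Semigroup W] [Finite W] [Finite X] {g : X → W}
    {E R : X → X → Prop} {P : X → W → Prop} (h : Cert g E R P)
    (hgen : Subsemigroup.closure (Set.range g) = ⊤) [Nonempty W] :
    OpH (OpS C0) W hW := by
  classical
  -- nonemptiness of `X`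
  have hX : Nonempty X := by
    by_contra hne
    rw [not_nonempty_iff] at hne
    obtain ⟨w⟩ := (inferInstance : Nonempty W)
    have hw : w ∈ (⊤ : Subsemigroup W) := Subsemigroup.mem_top w
    rw [← hgen, Set.range_eq_empty, Subsemigroup.closure_empty] at hw
    exact hw
  -- the states
  set St : Type := (X × X → Option W) × W with hSt
  have hτ : ∀ x y, ∃ σ : Equiv.Perm St, E x y →
      (R y x → ∀ k w, P y w → σ (k, w) = (k, g x * w)) ∧
      (¬ R y x → ∀ k w, k (x, y) = none →
        σ (k, w) = (Function.update k (x, y) (some w), g x * w)) := by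
    intro x y
    by_cases hE : E x y
    · by_cases hR : R y x
      · obtain ⟨σ, hσ⟩ := exists_perm_of_injOn {p : St | P y p.2} (fun p => (p.1, g x * p.2)) (by
          rintro ⟨k, w⟩ hw ⟨k', w'⟩ hw' heq
          have heq1 : k = k' := congrArg Prod.fst heq
          have heq2 : g x * w = g x * w' := congrArg Prod.snd heq
          rw [heq1, h.inj x y w w' hE hR hw hw' heq2])
        exact ⟨σ, fun _ => ⟨fun _ k w hw => hσ (k, w) hw, fun hn => absurd hR hn⟩⟩
      · obtain ⟨σ, hσ⟩ := exists_perm_of_injOn {p : St | p.1 (x, y) = none}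
          (fun p => (Function.update p.1 (x, y) (some p.2), g x * p.2)) (by
          rintro ⟨k, w⟩ hw ⟨k', w'⟩ hw' heq0
          have heq : Function.update k (x, y) (some w) = Function.update k' (x, y) (some w') :=
            congrArg Prod.fst heq0
          have h1 := congrFun heq (x, y)
          simp only [Function.update_self, Option.some.injEq] at h1
          subst h1
          have h2 : k = k' := by
            funext ab
            by_cases hab : ab = (x, y)
            · subst hab
              simp only [Set.mem_setOf_eq] at hw hw'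
              rw [hw, hw']
            · have h3 := congrFun heq ab
              simpa only [Function.update_of_ne hab] using h3
          rw [h2])
        exact ⟨σ, fun _ => ⟨fun hn => absurd hn hR, fun _ k w hw => hσ (k, w) hw⟩⟩
    · exact ⟨1, fun hE' => absurd hE' hE⟩
  choose τ hτ using hτ
  set q : Option X → Option X → Option (Equiv.Perm St) := fun a b =>
    match a, b with
    | some x, some y => if E x y then some (τ x y) else none
    | _, _ => some 1 with hq
  have hq1 : ∀ i, q none i = some 1 := fun i => rfl
  have hq2 : ∀ l, q l none = some 1 := fun l => by cases l <;> rfl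
  set F : FreeSemigroup X →ₙ* RM X (Equiv.Perm St) q :=
    FreeSemigroup.lift (fun x => (some (some x, 1, some x) : Option _)) with hF
  set V : FreeSemigroup X →ₙ* W := FreeSemigroup.lift g with hVdef
  have hFof : ∀ x, F (FreeSemigroup.of x) = (some (some x, 1, some x) : Option _) := by
    intro x; rw [hF]; exact FreeSemigroup.lift_of _ x
  have hVof : ∀ x, V (FreeSemigroup.of x) = g x := by
    intro x; rw [hVdef]; exact FreeSemigroup.lift_of _ x
  have hVhead : ∀ w, V w = g w.head ∨ ∃ v, V w = g w.head * v := by
    intro w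
    induction w using FreeSemigroup.recOnMul with
    | ih1 x => exact Or.inl (hVof x)
    | ih2 x y _ _ =>
      refine Or.inr ⟨V y, ?_⟩
      rw [map_mul, hVof]; rfl
  have claim : ∀ w : FreeSemigroup X,
      (F w = (none : Option _) ∧ ∀ v, V w * v = V w ∧ v * V w = V w) ∨
      ∃ (σ : Equiv.Perm St) (b : X), F w = (some (some w.head, σ, some b) : Option _) ∧
        P w.head (V w) ∧ ∃ k, σ (fun _ => none, g b) = (k, V w) ∧
          ∀ a c, k (a, c) ≠ none → w.head = a ∨ R w.head a := by
    intro w
    induction w using FreeSemigroup.recOnMul with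
    | ih1 x =>
      right
      refine ⟨1, x, hFof x, ?_, fun _ => none, ?_, ?_⟩
      · rw [hVof]; exact h.Pg x
      · rw [hVof]; rfl
      · intro a c hac; exact absurd rfl hac
    | ih2 x y' _ ih =>
      rcases ih with ⟨hF0, hV0⟩ | ⟨σ, b, hFy, hP, k, hσ, hk⟩
      · left
        refine ⟨?_, ?_⟩
        · rw [map_mul, hF0, hFof]; rfl
        · rw [map_mul, (hV0 _).2]; exact hV0
      · by_cases hE : E x y'.head
        · right
          have hFm : F (FreeSemigroup.of x * y') =
              (some (some x, 1 * τ x y'.head * σ, some b) : Option _) := by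
            rw [map_mul, hFof, hFy, RM.mul_def]
            simp only [RM.mul, hq, if_pos hE, Option.map_some]
          have hVm : V (FreeSemigroup.of x * y') = g x * V y' := by rw [map_mul, hVof]
          have hhd : (FreeSemigroup.of x * y').head = x := rfl
          rw [hhd, hFm, hVm]
          have hσ' : (1 * τ x y'.head * σ) (fun _ => none, g b) = τ x y'.head (k, V y') := by
            rw [one_mul, Equiv.Perm.mul_apply, hσ]
          by_cases hR : R y'.head x
          · refine ⟨_, b, rfl, h.Pmul _ _ _ hE hP, k, ?_, ?_⟩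
            · rw [hσ', (hτ x y'.head hE).1 hR k _ hP]
            · intro a c hac
              right
              rcases hk a c hac with h1 | h1
              · rw [← h1]; exact h.ER _ _ hE
              · exact h.trans _ _ _ (h.ER _ _ hE) h1
          · have hk0 : k (x, y'.head) = none := by
              by_contra hne
              rcases hk _ _ hne with h1 | h1
              · apply hR
                rw [h1] at hE ⊢
                exact h.ER _ _ hE
              · exact hR h1
            refine ⟨_, b, rfl, h.Pmul _ _ _ hE hP,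
              Function.update k (x, y'.head) (some (V y')), ?_, ?_⟩
            · rw [hσ', (hτ x y'.head hE).2 hR k _ hk0]
            · intro a c hac
              by_cases hac' : (a, c) = (x, y'.head)
              · left
                exact (congrArg Prod.fst hac').symm
              · rw [Function.update_of_ne hac'] at hac
                right
                rcases hk a c hac with h1 | h1
                · rw [← h1]; exact h.ER _ _ hE
                · exact h.trans _ _ _ (h.ER _ _ hE) h1
        · left
          refine ⟨?_, ?_⟩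
          · rw [map_mul, hFof, hFy, RM.mul_def]
            simp only [RM.mul, hq, if_neg hE, Option.map_none]
          · rcases h.zero with h0 | ⟨z, hz, hz2⟩
            · exact absurd (h0 _ _) hE
            · have h3 := hz2 _ _ hE
              have h4 : V (FreeSemigroup.of x * y') = z := by
                rw [map_mul, hVof]
                rcases hVhead y' with h5 | ⟨v, h5⟩
                · rw [h5, h3]
                · rw [h5, ← mul_assoc, h3, (hz v).1]
              rw [h4]; exact hz
  have hker : ∀ a b, F a = F b → V a = V b := by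
    intro a b hab
    rcases claim a with ⟨ha, ha'⟩ | ⟨σ, c, ha, _, k, hk, _⟩ <;>
    rcases claim b with ⟨hb, hb'⟩ | ⟨σ', c', hb, _, k', hk', _⟩
    · rw [← (ha' (V b)).1, (hb' (V a)).2]
    · rw [ha, hb] at hab; cases hab
    · rw [ha, hb] at hab; cases hab
    · rw [ha, hb] at hab
      have h5 := Option.some.inj hab
      simp only [Prod.mk.injEq, Option.some.injEq] at h5
      obtain ⟨_, rfl, rfl⟩ := h5
      rw [hk] at hk'
      exact (congrArg Prod.snd hk')
  have hVsurj : Function.Surjective V := by
    intro w
    have hw : w ∈ Subsemigroup.closure (Set.range g) := by rw [hgen]; trivial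
    induction hw using Subsemigroup.closure_induction with
    | mem x hx =>
      obtain ⟨y, rfl⟩ := hx
      exact ⟨FreeSemigroup.of y, hVof y⟩
    | mul x y _ _ hx hy =>
      obtain ⟨a, rfl⟩ := hx
      obtain ⟨b, rfl⟩ := hy
      exact ⟨a * b, map_mul _ _ _⟩
  obtain ⟨f, hf⟩ := exists_hom_of_ker F V hVsurj hker
  refine ⟨MulHom.srange F, inferInstance, ⟨?_, RM X (Equiv.Perm St) q, inferInstance,
    ⟨inferInstance, RM.zeroSimple hq1 hq2⟩, MulMemClass.subtype _, ?_⟩, f, hf⟩
  · obtain ⟨x⟩ := hX
    exact ⟨⟨F (FreeSemigroup.of x), ⟨_, rfl⟩⟩⟩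
  · exact Subtype.val_injective

/-- Membership in `ℍ𝕊(C₀)` implies the existence of a certificate. -/
theorem exists_cert {W : Type} [hW : Semigroup W] (h : OpH (OpS C0) W hW) :
    ∃ (E R : W → W → Prop) (P : W → W → Prop), Cert (id : W → W) E R P := by
  classical
  obtain ⟨U, hU, ⟨_, T, hT, ⟨hfin, hzs⟩, ι, hι⟩, π, hπ⟩ := h
  rw [isZeroSimple_iff] at hzs
  obtain ⟨z, hz⟩ := hzs
  choose u hu using hπ
  have hUfin : Finite U := Finite.of_injective ι hι
  set E : W → W → Prop := fun x y => ι (u x) * ι (u y) ≠ z with hE
  set R : W → W → Prop := fun x y =>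
    ι (u x) * ι (u y) ≠ z ∨ ∃ d : U, ι (u x) * ι d * ι (u y) ≠ z with hR
  set P : W → W → Prop := fun x w => ∃ v : U, (v = u x ∨ ∃ v', v = u x * v') ∧ π v = w ∧
    (ι (u x) ≠ z → ι v ≠ z) with hP
  refine ⟨E, R, P, ?_, ?_, ?_, ?_, ?_, ?_⟩
  · intro x y hxy; exact Or.inl hxy
  · intro x y w hxy hyw
    right
    rcases hxy with hxy | ⟨d, hxy⟩ <;> rcases hyw with hyw | ⟨d', hyw⟩
    · exact ⟨u y, hz.cat hxy hyw⟩
    · refine ⟨u y * d', ?_⟩
      rw [map_mul, mul_assoc, mul_assoc]
      rw [mul_assoc] at hyw
      have := hz.cat hxy hyw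
      rwa [mul_assoc] at this
    · refine ⟨d * u y, ?_⟩
      rw [map_mul, ← mul_assoc]
      exact hz.cat hxy hyw
    · refine ⟨d * u y * d', ?_⟩
      rw [map_mul, map_mul]
      rw [mul_assoc] at hyw
      have := hz.cat hxy hyw
      simpa only [mul_assoc] using this
  · intro x
    exact ⟨u x, Or.inl rfl, hu x, fun h => h⟩
  · rintro x y w hxy ⟨v, hv, rfl, hvz⟩
    have hy : ι (u y) ≠ z := by
      intro h0; apply hxy; rw [h0, hz.zr]
    have hv' := hvz hy
    refine ⟨u x * v, Or.inr ⟨v, rfl⟩, ?_, ?_⟩
    · rw [map_mul, hu]; rfl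
    · intro _
      rw [map_mul]
      rcases hv with rfl | ⟨v', rfl⟩
      · exact hxy
      · rw [map_mul] at hv' ⊢
        rw [← mul_assoc]
        exact hz.cat hxy hv'
  · rintro x y w w' hxy hyx ⟨v, hv, rfl, hvz⟩ ⟨v', hv', rfl, hvz'⟩ heq
    have hy : ι (u y) ≠ z := by
      intro h0; apply hxy; rw [h0, hz.zr]
    -- the loop element
    obtain ⟨c, hc1, hc2, hc3⟩ : ∃ c : U, (ι c * ι (u y) ≠ z) ∧ (∃ d : W, π c = d * x ∨ π c = x) ∧
        (∃ s, c = u y * s) := by
      rcases hyx with hyx | ⟨d, hyx⟩
      · refine ⟨u y * u x, ?_, ⟨π (u y), Or.inl ?_⟩, u x, rfl⟩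
        · rw [map_mul]; exact hz.cat hyx hxy
        · rw [map_mul, hu x]
      · refine ⟨u y * d * u x, ?_, ⟨π (u y * d), Or.inl ?_⟩, d * u x, by rw [mul_assoc]⟩
        · rw [map_mul, map_mul]; exact hz.cat hyx hxy
        · rw [map_mul, hu x]
    obtain ⟨s, hs⟩ := hc3
    -- key: for `v` in `u y U¹`, nonzero, `c v = v p`
    have key : ∀ v : U, (v = u y ∨ ∃ v', v = u y * v') → ι v ≠ z →
        ι c * ι v ≠ z ∧ ∃ p, ι c * ι v = ι v * p := by
      intro v hv hvz
      have hne : ι c * ι v ≠ z := by
        rcases hv with rfl | ⟨v', rfl⟩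
        · exact hc1
        · rw [map_mul] at hvz ⊢
          rw [← mul_assoc]
          exact hz.cat hc1 hvz
      refine ⟨hne, ?_⟩
      rcases hv with rfl | ⟨v', rfl⟩
      · refine ⟨ι s * ι (u y), ?_⟩
        rw [hs, map_mul, mul_assoc]
      · have hvz' := hvz
        rw [map_mul] at hvz'
        obtain ⟨t, ht⟩ := hz.stab_r hvz'
        refine ⟨t * (ι s * ι (u y * v')), ?_⟩
        rw [← mul_assoc _ t, map_mul ι (u y) v', ht, hs, map_mul, mul_assoc]
    obtain ⟨hn1, p1, hp1⟩ := key v hv (hvz hy)
    obtain ⟨hn2, p2, hp2⟩ := key v' hv' (hvz' hy)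
    -- common period
    obtain ⟨a, b, hab, hfab⟩ := Finite.exists_ne_map_eq_of_infinite
      (fun n : ℕ => ((fun y => ι c * y)^[n + 1] (ι v), (fun y => ι c * y)^[n + 1] (ι v')))
    wlog hlt : a < b generalizing a b
    · exact this b a hab.symm hfab.symm (lt_of_le_of_ne (not_lt.mp hlt) hab.symm)
    obtain ⟨N, rfl⟩ := Nat.exists_eq_add_of_lt hlt
    simp only [Prod.mk.injEq] at hfab
    have e1 : (fun y => ι c * y)^[N + 1] (ι v) = ι v := by
      apply hz.cancel_iter hn1 hp1 (k := a)
      rw [hfab.1]; congr 1; omega
    have e2 : (fun y => ι c * y)^[N + 1] (ι v') = ι v' := by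
      apply hz.cancel_iter hn2 hp2 (k := a)
      rw [hfab.2]; congr 1; omega
    -- pull back to `U`
    have hpull : ∀ n (v : U), (fun y => ι c * y)^[n] (ι v) = ι ((fun y => c * y)^[n] v) := by
      intro n
      induction n with
      | zero => intro v; rfl
      | succ n ih => intro v; rw [Function.iterate_succ, Function.comp, ← map_mul, ih]; rfl
    have hpush : ∀ n (v : U), π ((fun y => c * y)^[n] v) = (fun y => π c * y)^[n] (π v) := by
      intro n
      induction n with
      | zero => intro v; rfl
      | succ n ih => intro v; rw [Function.iterate_succ, Function.comp, ih, map_mul]; rfl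
    have e1' : (fun y => π c * y)^[N + 1] (π v) = π v := by
      rw [← hpush]; congr 1; apply hι; rw [← hpull, e1]
    have e2' : (fun y => π c * y)^[N + 1] (π v') = π v' := by
      rw [← hpush]; congr 1; apply hι; rw [← hpull, e2]
    have e3 : π c * π v = π c * π v' := by
      obtain ⟨d, hd | hd⟩ := hc2
      · rw [hd, mul_assoc, mul_assoc]
        have heq' : x * π v = x * π v' := heq
        rw [heq']
      · rw [hd]; exact heq
    rw [← e1', ← e2', Function.iterate_succ, Function.comp, Function.comp, e3]
  · by_cases hall : ∀ x y, E x y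
    · exact Or.inl hall
    · right
      push Not at hall
      obtain ⟨x0, y0, h0⟩ := hall
      simp only [hE, not_not] at h0
      refine ⟨π (u x0 * u y0), ?_, ?_⟩
      · intro w
        have hzero : ∀ t : U, ι (u x0 * u y0 * t) = ι (u x0 * u y0) ∧
            ι (t * (u x0 * u y0)) = ι (u x0 * u y0) := by
          intro t
          constructor
          · rw [map_mul, map_mul, h0, hz.zl]
          · rw [map_mul, map_mul, h0, hz.zr]
        obtain ⟨h1, h2⟩ := hzero (u w)
        constructor
        · conv_rhs => rw [← hι h1]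
          rw [map_mul π (u x0 * u y0), hu]
        · conv_rhs => rw [← hι h2]
          rw [map_mul π (u w), hu]
      · intro x y hxy
        simp only [hE, not_not] at hxy
        have : u x * u y = u x0 * u y0 := by
          apply hι; rw [map_mul, map_mul, hxy, h0]
        rw [← this, map_mul, hu, hu]
        rfl

end Pool.Agent.Helper87.Birk
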