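import Pool.Agent.Helper87.Birk.Form2

/-!
# The bounded formulas express membership in the classes
-/

set_option autoImplicit false

namespace Pool.Agent.Helper87.Birk

/-- the semigroup on `Fin n` defined by `f` -/
@[reducible] def toSg (n : ℕ) (f : ℕ → ℕ → ℕ) (h : SgOn n f) : Semigroup (Fin n) where
  mul x y := ⟨f x y, h.2.1 x x.2 y y.2⟩
  mul_assoc x y z := Fin.ext (h.2.2 x x.2 y y.2 z z.2)

/-- the semigroup defined by `n` and `f` belongs to `Φ` -/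
def Cls (Φ : SgClass) (n : ℕ) (f : ℕ → ℕ → ℕ) : Prop := ∃ h : SgOn n f, Φ (Fin n) (toSg n f h)

theorem exists_dg (b : ℕ) (L : ℕ) (f : ℕ → ℕ) (hf : ∀ i < L, f i < b) :
    ∃ c < b ^ L, ∀ i < L, dg b c i = f i := by
  induction L generalizing f with
  | zero => exact ⟨0, by simp, fun i hi => absurd hi (Nat.not_lt_zero i)⟩
  | succ L ih =>
    obtain ⟨c, hc, hc'⟩ := ih (fun i => f (i + 1)) (fun i hi => hf _ (by omega))
    have h0 := hf 0 (Nat.succ_pos _)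
    have hb : 0 < b := by omega
    refine ⟨f 0 + b * c, ?_, ?_⟩
    · rw [pow_succ]
      calc f 0 + b * c < b + b * c := by omega
        _ = b * (c + 1) := by ring
        _ ≤ b * b ^ L := Nat.mul_le_mul_left _ hc
        _ = b ^ L * b := mul_comm _ _
    · intro i hi
      rcases i with _ | i
      · unfold dg
        rw [pow_zero, Nat.div_one, Nat.add_mul_mod_self_left, Nat.mod_eq_of_lt h0]
      · have := hc' i (by omega)
        unfold dg at this ⊢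
        rw [pow_succ', ← Nat.div_div_eq_div_mul, Nat.add_mul_div_left _ _ hb,
          Nat.div_eq_of_lt h0, zero_add]
        exact this

theorem dg_lt {b : ℕ} (hb : 0 < b) (c i : ℕ) : dg b c i < b := Nat.mod_lt _ hb

theorem dg_inj (b : ℕ) (L : ℕ) {c c' : ℕ} (hc : c < b ^ L) (hc' : c' < b ^ L)
    (h : ∀ i < L, dg b c i = dg b c' i) : c = c' := by
  induction L generalizing c c' with
  | zero => rw [pow_zero] at hc hc'; omega
  | succ L ih =>
    have h0 := h 0 (Nat.succ_pos _)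
    unfold dg at h0
    rw [pow_zero, Nat.div_one, Nat.div_one] at h0
    have h1 : c / b = c' / b := by
      apply ih
      · rw [pow_succ] at hc; exact Nat.div_lt_of_lt_mul (by rwa [mul_comm] at hc)
      · rw [pow_succ] at hc'; exact Nat.div_lt_of_lt_mul (by rwa [mul_comm] at hc')
      · intro i hi
        have := h (i + 1) (by omega)
        unfold dg at this ⊢
        rwa [pow_succ', ← Nat.div_div_eq_div_mul, ← Nat.div_div_eq_div_mul] at this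
    rw [← Nat.div_add_mod c b, ← Nat.div_add_mod c' b, h0, h1]

theorem exists_bt (n : ℕ) (E : ℕ → ℕ → Prop) :
    ∃ e < 2 ^ (n * n), ∀ x < n, ∀ y < n, bt n e x y ↔ E x y := by
  classical
  obtain ⟨e, he, he'⟩ := exists_dg 2 (n * n) (fun i => if E (i / n) (i % n) then 1 else 0)
    (by intro i _; split_ifs <;> omega)
  refine ⟨e, he, ?_⟩
  intro x hx y hy
  have hlt : x * n + y < n * n := by
    calc x * n + y < x * n + n := by omega
      _ = (x + 1) * n := by ring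
      _ ≤ n * n := Nat.mul_le_mul_right _ hx
  have h1 := he' _ hlt
  have h2 : (x * n + y) / n = x := by
    rw [mul_comm, Nat.mul_add_div (by omega), Nat.div_eq_of_lt hy, add_zero]
  have h3 : (x * n + y) % n = y := by
    rw [mul_comm, Nat.mul_add_mod, Nat.mod_eq_of_lt hy]
  rw [h2, h3] at h1
  unfold bt
  rw [h1]
  split_ifs with h <;> simp [h]

theorem cls_C0_iff (n : ℕ) (f : ℕ → ℕ → ℕ) : Cls C0 n f ↔ FC0 n f := by
  constructor
  · rintro ⟨h, _, hzs⟩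
    let _ := toSg n f h
    obtain ⟨z, hz⟩ := isZeroSimple_iff.mp hzs
    refine ⟨h, z, z.2, ?_, ?_, ?_⟩
    · intro x hx
      exact ⟨congrArg Fin.val (hz.zl ⟨x, hx⟩), congrArg Fin.val (hz.zr ⟨x, hx⟩)⟩
    · obtain ⟨x, y, hxy⟩ := hz.nt
      exact ⟨x, x.2, y, y.2, fun h' => hxy (Fin.ext h')⟩
    · intro x hx hxz y hy
      obtain ⟨p, q, hpq⟩ := hz.div ⟨x, hx⟩ (fun h' => hxz (congrArg Fin.val h')) ⟨y, hy⟩
      exact ⟨p, p.2, q, q.2, congrArg Fin.val hpq⟩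
  · rintro ⟨h, z, hz, h1, ⟨x, hx, y, hy, hxy⟩, h3⟩
    refine ⟨h, inferInstance, ?_⟩
    let _ := toSg n f h
    rw [isZeroSimple_iff]
    refine ⟨⟨z, hz⟩, ?_, ?_, ?_, ?_⟩
    · intro x; exact Fin.ext (h1 x x.2).1
    · intro x; exact Fin.ext (h1 x x.2).2
    · exact ⟨⟨x, hx⟩, ⟨y, hy⟩, fun h' => hxy (congrArg Fin.val h')⟩
    · intro x hxz y
      obtain ⟨p, hp, q, hq, hpq⟩ := h3 x x.2 (fun h' => hxz (Fin.ext h')) y y.2
      exact ⟨⟨p, hp⟩, ⟨q, hq⟩, Fin.ext hpq⟩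

theorem cls_HS_iff (n : ℕ) (f : ℕ → ℕ → ℕ) : Cls (OpH (OpS C0)) n f ↔ FHS n f := by
  classical
  constructor
  · rintro ⟨h, hHS⟩
    let _ := toSg n f h
    obtain ⟨E, R, P, hc⟩ := exists_cert hHS
    have hpos : 0 < n := h.1
    have hex : ∀ E : Fin n → Fin n → Prop, ∃ e < 2 ^ (n * n), ∀ x y : Fin n,
        bt n e x y ↔ E x y := by
      intro E
      obtain ⟨e, he, he'⟩ := exists_bt n (fun x y => ∃ (hx : x < n) (hy : y < n),
        E ⟨x, hx⟩ ⟨y, hy⟩)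
      refine ⟨e, he, fun x y => (he' x x.2 y y.2).trans ⟨?_, fun h => ⟨x.2, y.2, h⟩⟩⟩
      rintro ⟨_, _, h⟩; exact h
    obtain ⟨e, he, he'⟩ := hex E
    obtain ⟨r, hr, hr'⟩ := hex R
    obtain ⟨p, hp, hp'⟩ := hex P
    refine ⟨h, e, he, r, hr, p, hp, ?_, ?_, ?_, ?_, ?_, ?_⟩
    · intro x hx y hy hxy
      exact (hr' ⟨x, hx⟩ ⟨y, hy⟩).mpr (hc.ER _ _ ((he' ⟨x, hx⟩ ⟨y, hy⟩).mp hxy))
    · intro x hx y hy w hw hxy hyw
      exact (hr' ⟨x, hx⟩ ⟨w, hw⟩).mpr (hc.trans _ _ _ ((hr' ⟨x, hx⟩ ⟨y, hy⟩).mp hxy)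
        ((hr' ⟨y, hy⟩ ⟨w, hw⟩).mp hyw))
    · intro x hx
      exact (hp' ⟨x, hx⟩ ⟨x, hx⟩).mpr (hc.Pg _)
    · intro x hx y hy w hw hxy hyw
      exact (hp' ⟨x, hx⟩ ⟨f x w, h.2.1 x hx w hw⟩).mpr (hc.Pmul _ _ _
        ((he' ⟨x, hx⟩ ⟨y, hy⟩).mp hxy) ((hp' ⟨y, hy⟩ ⟨w, hw⟩).mp hyw))
    · intro x hx y hy w hw w' hw' hxy hyx hyw hyw' heq
      have := hc.inj ⟨x, hx⟩ ⟨y, hy⟩ ⟨w, hw⟩ ⟨w', hw'⟩ ((he' ⟨x, hx⟩ ⟨y, hy⟩).mp hxy)
        ((hr' ⟨y, hy⟩ ⟨x, hx⟩).mp hyx) ((hp' ⟨y, hy⟩ ⟨w, hw⟩).mp hyw)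
        ((hp' ⟨y, hy⟩ ⟨w', hw'⟩).mp hyw') (Fin.ext heq)
      exact congrArg Fin.val this
    · rcases hc.zero with h0 | ⟨z, hz, hz'⟩
      · left
        intro x hx y hy
        exact (he' ⟨x, hx⟩ ⟨y, hy⟩).mpr (h0 _ _)
      · right
        refine ⟨z, z.2, ?_, ?_⟩
        · intro w hw
          exact ⟨congrArg Fin.val (hz ⟨w, hw⟩).1, congrArg Fin.val (hz ⟨w, hw⟩).2⟩
        · intro x hx y hy hxy
          exact congrArg Fin.val (hz' ⟨x, hx⟩ ⟨y, hy⟩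
            (fun h' => hxy ((he' ⟨x, hx⟩ ⟨y, hy⟩).mpr h')))
  · rintro ⟨h, e, _, r, _, p, _, h1, h2, h3, h4, h5, h6⟩
    refine ⟨h, ?_⟩
    let _ := toSg n f h
    have : Nonempty (Fin n) := ⟨⟨0, h.1⟩⟩
    refine Cert.opHS (g := (id : Fin n → Fin n)) (E := fun x y => bt n e x y)
      (R := fun x y => bt n r x y) (P := fun x y => bt n p x y) ⟨?_, ?_, ?_, ?_, ?_, ?_⟩ ?_
    · intro x y hxy; exact h1 x x.2 y y.2 hxy
    · intro x y w hxy hyw; exact h2 x x.2 y y.2 w w.2 hxy hyw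
    · intro x; exact h3 x x.2
    · intro x y w hxy hyw; exact h4 x x.2 y y.2 w w.2 hxy hyw
    · intro x y w w' hxy hyx hyw hyw' heq
      exact Fin.ext (h5 x x.2 y y.2 w w.2 w' w'.2 hxy hyx hyw hyw' (congrArg Fin.val heq))
    · rcases h6 with h6 | ⟨z, hz, h6, h7⟩
      · left; intro x y; exact h6 x x.2 y y.2
      · right
        refine ⟨⟨z, hz⟩, ?_, ?_⟩
        · intro w; exact ⟨Fin.ext (h6 w w.2).1, Fin.ext (h6 w w.2).2⟩
        · intro x y hxy; exact Fin.ext (h7 x x.2 y y.2 hxy)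
    · rw [Set.range_id]
      exact @Subsemigroup.closure_univ (Fin n) (toSg n f h).toMul

theorem exists_code {W : Type} [Semigroup W] [Finite W] {b k : ℕ}
    (hcard : Nat.card W < b) (γ : Fin k → W) :
    ∃ w < b ^ (1 + b * b + k), ∃ e : W ≃ Fin (cn b w),
      (∀ x y : W, cm b w (e x) (e y) = e (x * y)) ∧ ∀ t : Fin k, cg b w t = e (γ t) := by
  classical
  set n := Nat.card W with hn
  have e0 : W ≃ Fin n := Finite.equivFin W
  set F : ℕ → ℕ := fun i => if i = 0 then n else if i < 1 + b * b then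
    (if h : (i - 1) / b < n ∧ (i - 1) % b < n then
      (e0 (e0.symm ⟨(i - 1) / b, h.1⟩ * e0.symm ⟨(i - 1) % b, h.2⟩) : ℕ) else 0) else
    (if h : i - (1 + b * b) < k then (e0 (γ ⟨i - (1 + b * b), h⟩) : ℕ) else 0) with hF
  have hFlt : ∀ i < 1 + b * b + k, F i < b := by
    intro i _
    simp only [hF]
    split_ifs
    · exact hcard
    · exact (Fin.is_lt _).trans hcard
    · omega
    · exact (Fin.is_lt _).trans hcard
    · omega
  obtain ⟨w, hw, hw'⟩ := exists_dg b _ F hFlt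
  have hcn : cn b w = n := by
    unfold cn; rw [hw' 0 (by omega)]; simp [hF]
  refine ⟨w, hw, e0.trans (finCongr hcn.symm), ?_, ?_⟩
  · intro x y
    have hx : (e0 x : ℕ) < b := (Fin.is_lt _).trans hcard
    have hy : (e0 y : ℕ) < b := (Fin.is_lt _).trans hcard
    have hlt : (e0 x : ℕ) * b + (e0 y : ℕ) < b * b := by
      calc (e0 x : ℕ) * b + (e0 y : ℕ) < (e0 x : ℕ) * b + b := by omega
        _ = ((e0 x : ℕ) + 1) * b := by ring
        _ ≤ b * b := Nat.mul_le_mul_right _ hx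
    show dg b w (1 + (e0 x : ℕ) * b + (e0 y : ℕ)) = (e0 (x * y) : ℕ)
    rw [hw' _ (by omega)]
    have h1 : (1 + (e0 x : ℕ) * b + (e0 y : ℕ) - 1) / b = e0 x := by
      have : 1 + (e0 x : ℕ) * b + (e0 y : ℕ) - 1 = b * (e0 x : ℕ) + (e0 y : ℕ) := by
        rw [mul_comm b]; omega
      rw [this, Nat.mul_add_div (by omega), Nat.div_eq_of_lt hy, add_zero]
    have h2 : (1 + (e0 x : ℕ) * b + (e0 y : ℕ) - 1) % b = e0 y := by
      have : 1 + (e0 x : ℕ) * b + (e0 y : ℕ) - 1 = b * (e0 x : ℕ) + (e0 y : ℕ) := by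
        rw [mul_comm b]; omega
      rw [this, Nat.mul_add_mod, Nat.mod_eq_of_lt hy]
    have h3 : ¬ (1 + (e0 x : ℕ) * b + (e0 y : ℕ) = 0) := by omega
    have h4 : 1 + (e0 x : ℕ) * b + (e0 y : ℕ) < 1 + b * b := by omega
    simp only [hF, if_neg h3, if_pos h4]
    rw [dif_pos ⟨by rw [h1]; exact (e0 x).2, by rw [h2]; exact (e0 y).2⟩]
    have h5 : ∀ (a c : ℕ) (ha : a < n) (hc : c < n), a = e0 x → c = e0 y →
        (e0 (e0.symm ⟨a, ha⟩ * e0.symm ⟨c, hc⟩) : ℕ) = (e0 (x * y) : ℕ) := by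
      rintro a c ha hc rfl rfl
      simp
    exact h5 _ _ _ _ h1 h2
  · intro t
    show dg b w (1 + b * b + (t : ℕ)) = (e0 (γ t) : ℕ)
    rw [hw' _ (by have := t.2; omega)]
    have h3 : ¬ (1 + b * b + (t : ℕ) = 0) := by omega
    have h4 : ¬ (1 + b * b + (t : ℕ) < 1 + b * b) := by omega
    have h5 : 1 + b * b + (t : ℕ) - (1 + b * b) = t := by omega
    simp only [hF, if_neg h3, if_neg h4]
    rw [dif_pos (by rw [h5]; exact t.2)]
    congr 3
    exact Fin.ext h5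

theorem sgOn_of_equiv {W : Type} [Semigroup W] {n : ℕ} {f : ℕ → ℕ → ℕ} (hn : 0 < n)
    (e : W ≃ Fin n) (h : ∀ x y, f (e x) (e y) = e (x * y)) :
    ∃ hs : SgOn n f, Nonempty (@MulEquiv W (Fin n) _ (toSg n f hs).toMul) := by
  have h' : ∀ x y : Fin n, f x y = e (e.symm x * e.symm y) := by
    intro x y
    rw [← h, Equiv.apply_symm_apply, Equiv.apply_symm_apply]
  have hs : SgOn n f := by
    refine ⟨hn, ?_, ?_⟩
    · intro x hx y hy
      rw [h' ⟨x, hx⟩ ⟨y, hy⟩]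
      exact Fin.is_lt _
    · intro x hx y hy z hz
      have e1 := h' ⟨x, hx⟩ ⟨y, hy⟩
      have e2 := h' ⟨y, hy⟩ ⟨z, hz⟩
      simp only at e1 e2
      rw [e1, e2, h' _ ⟨z, hz⟩, h' ⟨x, hx⟩ _, Equiv.symm_apply_apply, Equiv.symm_apply_apply,
        mul_assoc]
  refine ⟨hs, ⟨@MulEquiv.mk W (Fin n) _ (toSg n f hs).toMul e ?_⟩⟩
  intro x y
  exact Fin.ext (h x y).symm

end Pool.Agent.Helper87.Birk
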