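import Mathlib

/-!
# Classes of finite semigroups, Birkhoff operators and decidability from multiplication tables
-/

set_option autoImplicit false

namespace Pool.Agent.Helper87.Birk

/-- A semigroup is `0`-simple if it has a zero element `z`, not all products are `z`, and its only
(nonempty, two-sided) ideals are `{z}` and the whole semigroup. -/
def IsZeroSimple (T : Type) [Semigroup T] : Prop :=
  ∃ z : T, (∀ x : T, z * x = z ∧ x * z = z) ∧ (∃ x y : T, x * y ≠ z) ∧
    ∀ I : Set T, I.Nonempty → (∀ x ∈ I, ∀ y : T, x * y ∈ I ∧ y * x ∈ I) →
      I = {z} ∨ I = Set.univ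

/-- A class of semigroups (given by a predicate on a type together with a semigroup structure). -/
abbrev SgClass : Type 1 := ∀ S : Type, Semigroup S → Prop

/-- The class `C₀` of all finite `0`-simple semigroups. -/
def C0 : SgClass := fun T _ => Finite T ∧ IsZeroSimple T

/-- `ℍ(Φ)`: homomorphic images of members of `Φ`. -/
def OpH (Φ : SgClass) : SgClass := fun S _ =>
  ∃ (T : Type) (hT : Semigroup T), Φ T hT ∧ ∃ f : T →ₙ* S, Function.Surjective f

/-- `𝕊(Φ)`: (nonempty) semigroups embeddable into members of `Φ`. -/
def OpS (Φ : SgClass) : SgClass := fun S _ =>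
  Nonempty S ∧ ∃ (T : Type) (hT : Semigroup T), Φ T hT ∧ ∃ f : S →ₙ* T, Function.Injective f

/-- `ℙ(Φ)`: direct products of finitely many (at least one) members of `Φ`. -/
def OpP (Φ : SgClass) : SgClass := fun S _ =>
  ∃ (n : ℕ) (T : Fin (n + 1) → Type) (hT : ∀ i, Semigroup (T i)),
    (∀ i, Φ (T i) (hT i)) ∧ Nonempty (S ≃* ((i : Fin (n + 1)) → T i))

/-- The entry in row `x` and column `y` of a table. -/
def tableMul (t : List (List ℕ)) (x y : ℕ) : ℕ := (t.getD x []).getD y 0

/-- `t` is the multiplication table of a nonempty finite semigroup with underlying set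
`{0, …, t.length - 1}`: it is a nonempty square table, with entries `< t.length`, whose
multiplication is associative. -/
structure IsMulTable (t : List (List ℕ)) : Prop where
  nonempty : t ≠ []
  rows : ∀ r ∈ t, r.length = t.length
  entries : ∀ r ∈ t, ∀ a ∈ r, a < t.length
  assoc : ∀ x < t.length, ∀ y < t.length, ∀ z < t.length,
    tableMul t (tableMul t x y) z = tableMul t x (tableMul t y z)

theorem IsMulTable.lt {t : List (List ℕ)} (h : IsMulTable t) (x y : Fin t.length) :
    tableMul t x y < t.length := by
  have h1 : t[(x : ℕ)] ∈ t := List.getElem_mem x.2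
  have h2 : (y : ℕ) < t[(x : ℕ)].length := by rw [h.rows _ h1]; exact y.2
  have h3 : tableMul t x y = t[(x : ℕ)][(y : ℕ)] := by
    simp [tableMul, x.2, h2]
  rw [h3]
  exact h.entries _ h1 _ (List.getElem_mem h2)

/-- The semigroup on `Fin t.length` whose multiplication table is `t`. -/
def tableSemigroup (t : List (List ℕ)) (h : IsMulTable t) : Semigroup (Fin t.length) where
  mul x y := ⟨tableMul t x y, h.lt x y⟩
  mul_assoc x y z := Fin.ext (h.assoc x x.2 y y.2 z z.2)

/-- A class `Φ` of finite semigroups is decidable if there is an algorithm (a computable Boolean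
function on lists of lists of natural numbers) which decides whether a given list of lists is the
multiplication table of a finite semigroup belonging to `Φ`. -/
def DecidableClass (Φ : SgClass) : Prop :=
  ComputablePred fun t : List (List ℕ) =>
    ∃ h : IsMulTable t, Φ (Fin t.length) (tableSemigroup t h)

end Pool.Agent.Helper87.Birk
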