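import Pool.Agent.Helper87.Birk.Main

/-!
# Decidability of `ℍℙ(C₀)`, `ℍℙ𝕊(C₀)` and `𝕊ℍℙ𝕊(C₀)`
-/

set_option autoImplicit false

namespace Pool.Agent.Helper87.Birk

theorem bN_pos (m k : ℕ) : 0 < bN m k := by unfold bN; omega

theorem cls_HPC0_iff (m : ℕ) (f : ℕ → ℕ → ℕ) : Cls (OpH (OpP C0)) m f ↔
    FHP GC0 (bN m (kC m)) (bN m (kC m) ^ (1 + bN m (kC m) * bN m (kC m) + kC m)) m f := by
  apply cls_HP_iff (Φ := C0) (fun e h => c0_of_mulEquiv e h) (fun b w => (cls_C0_iff _ _).symm)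
    bool_c0 (bN_pos _ _)
  intro hs h
  have := @exists_wit_HP (Fin m) (toSg m f hs) _ h
  rwa [Nat.card_fin] at this

theorem cls_HPS'_iff (m : ℕ) (f : ℕ → ℕ → ℕ) : Cls (OpH (OpP (OpH (OpS C0)))) m f ↔
    FHP GHS (bN m m) (bN m m ^ (1 + bN m m * bN m m + m)) m f := by
  apply cls_HP_iff (Φ := OpH (OpS C0)) (fun e h => opH_of_mulEquiv e h)
    (fun b w => (cls_HS_iff _ _).symm) bool_hsc0 (bN_pos _ _)
  intro hs h
  have := @exists_wit_HPS (Fin m) (toSg m f hs) _ (opH_opP_opH h)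
  rwa [Nat.card_fin] at this

theorem opH_self {Φ : SgClass} {S : Type} {hS : Semigroup S} (h : Φ S hS) : OpH Φ S hS :=
  ⟨S, hS, h, MulHom.id S, fun x => ⟨x, rfl⟩⟩

theorem opH_mono {Φ Ψ : SgClass} (h : ∀ (S : Type) (hS : Semigroup S), Φ S hS → Ψ S hS)
    {S : Type} {hS : Semigroup S} (hΦ : OpH Φ S hS) : OpH Ψ S hS := by
  obtain ⟨T, hT, h2, f, hf⟩ := hΦ
  exact ⟨T, hT, h _ _ h2, f, hf⟩

theorem opP_mono {Φ Ψ : SgClass} (h : ∀ (S : Type) (hS : Semigroup S), Φ S hS → Ψ S hS)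
    {S : Type} {hS : Semigroup S} (hΦ : OpP Φ S hS) : OpP Ψ S hS := by
  obtain ⟨n, T, hT, h2, e⟩ := hΦ
  exact ⟨n, T, hT, fun i => h _ _ (h2 i), e⟩

theorem cls_HPS_iff (m : ℕ) (f : ℕ → ℕ → ℕ) : Cls (OpH (OpP (OpS C0))) m f ↔
    FHP GHS (bN m m) (bN m m ^ (1 + bN m m * bN m m + m)) m f := by
  rw [← cls_HPS'_iff]
  constructor
  · rintro ⟨h, h'⟩
    exact ⟨h, opH_mono (fun S hS hP => opP_mono (fun S hS h => opH_self h) hP) h'⟩
  · rintro ⟨h, h'⟩
    exact ⟨h, opH_opP_opH h'⟩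

theorem cls_SHPS_iff (m : ℕ) (f : ℕ → ℕ → ℕ) : Cls (OpS (OpH (OpP (OpS C0)))) m f ↔
    FSep (m + m * m + 1) m f := by
  constructor
  · rintro ⟨hs, h⟩
    have hsep := @sep_of_SHPS (Fin m) (toSg m f hs) _ h
    rw [Nat.card_fin] at hsep
    set β := m + m * m + 1 with hβ
    refine ⟨hs, ?_⟩
    intro a ha b hb c hc d hd hne
    obtain ⟨W, hW, g, hHS, hfin, hcard, hrel, hsepW⟩ :=
      hsep ⟨a, ha⟩ ⟨b, hb⟩ ⟨c, hc⟩ ⟨d, hd⟩ (fun h' => hne (congrArg Fin.val h'))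
    obtain ⟨w, hw, e, he, heg⟩ := exists_code hcard g
    have hpos : 0 < cn β w := Fin.pos (e (g ⟨a, ha⟩))
    obtain ⟨hs', ⟨e'⟩⟩ := sgOn_of_equiv hpos e he
    refine ⟨w, hw, ?_, ?_, ?_, ?_⟩
    · rw [← cls_HS_iff]
      exact ⟨hs', opH_of_mulEquiv e' hHS⟩
    · intro x hx
      rw [heg ⟨x, hx⟩]; exact Fin.is_lt _
    · intro x hx a' ha' c' hc'
      have e1 := heg ⟨a', ha'⟩
      have e2 := heg ⟨c', hc'⟩
      have e3 := heg ⟨f a' c', hs.2.1 a' ha' c' hc'⟩
      have e4 : x = (e (e.symm ⟨x, hx⟩) : ℕ) := by rw [Equiv.apply_symm_apply]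
      simp only at e1 e2 e3
      have h5 := hrel (e.symm ⟨x, hx⟩) ⟨a', ha'⟩ ⟨c', hc'⟩
      rw [e1, e2, e3, e4, he, he, he, he, he]
      exact ⟨congrArg (fun t => (e t : ℕ)) h5.1, congrArg (fun t => (e t : ℕ)) h5.2⟩
    · rw [heg ⟨a, ha⟩, heg ⟨b, hb⟩, heg ⟨c, hc⟩, heg ⟨d, hd⟩, he, he]
      intro h'
      exact hsepW (e.injective (Fin.ext h'))
  · rintro ⟨hs, h⟩
    refine ⟨hs, ?_⟩
    set β := m + m * m + 1 with hβ
    have : Nonempty (Fin m) := ⟨⟨0, hs.1⟩⟩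
    have hβpos : 0 < β := by omega
    apply @SHPS_of_sep (Fin m) (toSg m f hs) _ _ β
    intro a b c d hne
    obtain ⟨w, hw, hHS, hg, hrel, hsepw⟩ := h a a.2 b b.2 c c.2 d d.2
      (fun h' => hne (Fin.ext h'))
    rw [← cls_HS_iff] at hHS
    obtain ⟨hs', hHS⟩ := hHS
    refine ⟨Fin (cn β w), toSg _ _ hs', fun x => ⟨cg β w x, hg x x.2⟩, hHS, inferInstance,
      ?_, ?_, ?_⟩
    · rw [Nat.card_fin]; exact dg_lt hβpos _ _
    · intro x a' c'
      have h5 := hrel x x.2 a' a'.2 c' c'.2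
      exact ⟨Fin.ext h5.1, Fin.ext h5.2⟩
    · intro h'
      exact hsepw (congrArg Fin.val h')

section

variable {α : Type} [Primcodable α]

@[fun_prop] theorem pr_bB {f : α → ℕ} (hf : Primrec f) : Primrec (fun x => bB (f x)) := by
  unfold bB; fun_prop

@[fun_prop] theorem pr_bN {f g : α → ℕ} (hf : Primrec f) (hg : Primrec g) :
    Primrec (fun x => bN (f x) (g x)) := by
  unfold bN; fun_prop

@[fun_prop] theorem pr_kC {f : α → ℕ} (hf : Primrec f) : Primrec (fun x => kC (f x)) := by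
  unfold kC; fun_prop

end

theorem pr_len : Primrec fun t : List (List ℕ) => t.length := Primrec.list_length

theorem decidable_of_formula {Φ : SgClass} {P : List (List ℕ) → Prop}
    (h : ∀ t : List (List ℕ), Cls Φ t.length (tableMul t) ↔ P t) (hP : PrimrecPred P) :
    DecidableClass Φ := by
  have h1 : PrimrecPred fun t : List (List ℕ) => IsMulTable t ∧ P t := pp_and pp_isMulTable hP
  refine PrimrecPred.computablePred (h1.of_eq fun t => ?_)
  constructor
  · rintro ⟨ht, hPt⟩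
    rw [← h] at hPt
    obtain ⟨hs, hΦ⟩ := hPt
    exact ⟨ht, hΦ⟩
  · rintro ⟨ht, hΦ⟩
    refine ⟨ht, ?_⟩
    rw [← h]
    exact ⟨((isMulTable_iff t).mp ht).2, hΦ⟩

theorem decidable_HP : DecidableClass (OpH (OpP C0)) := by
  refine decidable_of_formula (fun t => cls_HPC0_iff t.length (tableMul t)) ?_
  have hl := pr_len
  exact pp_FHP pp_GC0' (α := List (List ℕ))
    (b := fun t => bN t.length (kC t.length))
    (K := fun t => bN t.length (kC t.length) ^
      (1 + bN t.length (kC t.length) * bN t.length (kC t.length) + kC t.length))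
    (m := fun t => t.length) (F := fun q => tableMul q.1 q.2.1 q.2.2)
    (by fun_prop) (by fun_prop) hl pr_tableMul'

theorem decidable_HPS : DecidableClass (OpH (OpP (OpS C0))) := by
  refine decidable_of_formula (fun t => cls_HPS_iff t.length (tableMul t)) ?_
  have hl := pr_len
  exact pp_FHP pp_GHS' (α := List (List ℕ))
    (b := fun t => bN t.length t.length)
    (K := fun t => bN t.length t.length ^
      (1 + bN t.length t.length * bN t.length t.length + t.length))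
    (m := fun t => t.length) (F := fun q => tableMul q.1 q.2.1 q.2.2)
    (by fun_prop) (by fun_prop) hl pr_tableMul'

theorem decidable_SHPS : DecidableClass (OpS (OpH (OpP (OpS C0)))) := by
  refine decidable_of_formula (fun t => cls_SHPS_iff t.length (tableMul t)) ?_
  have hl := pr_len
  exact pp_FSep (α := List (List ℕ)) (b := fun t => t.length + t.length * t.length + 1)
    (m := fun t => t.length) (F := fun q => tableMul q.1 q.2.1 q.2.2)
    (by fun_prop) hl pr_tableMul'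

end Pool.Agent.Helper87.Birk
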