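import Pool.Agent.Helper87.Birk.Shps

/-!
# The separation criterion implies membership in `𝕊ℍℙ𝕊(C₀)`
-/

set_option autoImplicit false

namespace Pool.Agent.Helper87.Birk

theorem SHPS_of_sep {S : Type} [hS : Semigroup S] [Finite S] [Nonempty S] {b : ℕ}
    (h : Sep S b) : OpS (OpH (OpP (OpS C0))) S hS := by
  classical
  set Q : Type := {q : S × S × S × S // q.1 * q.2.1 ≠ q.2.2.1 * q.2.2.2} with hQ
  have h' : ∀ q : Q, ∃ (W : Type) (hW : Semigroup W) (g : S → W),
    OpH (OpS C0) W hW ∧ Finite W ∧ Nat.card W < b ∧
    (∀ x a c, x * (g a * g c) = x * g (a * c) ∧ g a * g c * x = g (a * c) * x) ∧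
    g q.1.1 * g q.1.2.1 ≠ g q.1.2.2.1 * g q.1.2.2.2 := fun q => h _ _ _ _ q.2
  choose W0 hW0 g0 hHS hfin hcard hrel hsep using h'
  let W : Option Q → Type := fun o =>
    match o with
    | none => NullS S
    | some q => W0 q
  let hW : ∀ o, Semigroup (W o) := fun o =>
    match o with
    | none => (inferInstance : Semigroup (NullS S))
    | some q => hW0 q
  let g : ∀ o, S → W o := fun o =>
    match o with
    | none => fun s => (some s : Option S)
    | some q => g0 q
  have hWHS : ∀ o, OpH (OpS C0) (W o) (hW o) := by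
    intro o
    rcases o with _ | q
    · exact nullS_mem S
    · exact hHS q
  set V : Type := ∀ o, W o with hV
  have hVP : OpP (OpH (OpS C0)) V inferInstance := opP_of_finite hW hWHS
  set til : S → V := fun s o => g o s with htil
  set ev : FreeSemigroup S →ₙ* V := FreeSemigroup.lift til with hev
  set val : FreeSemigroup S →ₙ* S := FreeSemigroup.lift id with hval
  have hevof : ∀ s, ev (FreeSemigroup.of s) = til s := by
    intro s; rw [hev]; exact FreeSemigroup.lift_of _ s
  have hvalof : ∀ s, val (FreeSemigroup.of s) = s := by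
    intro s; rw [hval]; exact FreeSemigroup.lift_of _ s
  -- relations in `V`
  have hr1 : ∀ (x : V) a c, x * (til a * til c) = x * til (a * c) := by
    intro x a c
    funext o
    rcases o with _ | q
    · rfl
    · exact (hrel q (x (some q)) a c).1
  have hr2 : ∀ (x : V) a c, til a * til c * x = til (a * c) * x := by
    intro x a c
    funext o
    rcases o with _ | q
    · rfl
    · exact (hrel q (x (some q)) a c).2
  have hM1 : ∀ (w : FreeSemigroup S) (x : V), x * ev w = x * til (val w) := by
    intro w
    induction w using FreeSemigroup.recOnMul with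
    | ih1 s => intro x; rw [hevof, hvalof]
    | ih2 s y _ hy =>
      intro x
      rw [map_mul, hevof, ← mul_assoc, hy, mul_assoc, hr1, map_mul, hvalof]
  have hM2 : ∀ (w : FreeSemigroup S) (x : V), ev w * x = til (val w) * x := by
    intro w
    induction w using FreeSemigroup.recOnMul with
    | ih1 s => intro x; rw [hevof, hvalof]
    | ih2 s y _ hy =>
      intro x
      rw [map_mul, hevof, mul_assoc, hy, ← mul_assoc, hr2, map_mul, hvalof]
  have hshape : ∀ w : FreeSemigroup S, w = FreeSemigroup.of (val w) ∨
      ∃ a c, val w = a * c ∧ ev w = til a * til c := by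
    intro w
    induction w using FreeSemigroup.recOnMul with
    | ih1 s => left; rw [hvalof]
    | ih2 s y _ _ =>
      right
      exact ⟨s, val y, by rw [map_mul, hvalof], by rw [map_mul, hevof, hM1]⟩
  have hkey : ∀ w w' : FreeSemigroup S, ev w = ev w' → val w = val w' := by
    intro w w' heq
    rcases hshape w with hw | ⟨a, c, hw, hw2⟩ <;> rcases hshape w' with hw' | ⟨a', c', hw', hw2'⟩
    · rw [hw, hw', hevof, hevof] at heq
      have h1 := congrFun heq none
      exact Option.some.inj h1
    · rw [hw, hevof, hw2'] at heq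
      have h1 : (some (val w) : Option S) = none := congrFun heq none
      cases h1
    · rw [hw', hevof, hw2] at heq
      have h1 : (none : Option S) = some (val w') := congrFun heq none
      cases h1
    · rw [hw, hw']
      by_contra hne
      rw [hw2, hw2'] at heq
      have h1 := congrFun heq (some ⟨(a, c, a', c'), hne⟩)
      exact hsep ⟨(a, c, a', c'), hne⟩ h1
  let ρ : Con V :=
    { r := fun v v' => v = v' ∨ ∃ w w' : FreeSemigroup S, v = ev w ∧ v' = ev w' ∧ val w = val w'
      iseqv := by
        refine ⟨fun v => Or.inl rfl, ?_, ?_⟩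
        · rintro v v' (rfl | ⟨w, w', h1, h2, h3⟩)
          · exact Or.inl rfl
          · exact Or.inr ⟨w', w, h2, h1, h3.symm⟩
        · rintro v v' v'' (rfl | ⟨w, w', h1, h2, h3⟩) (rfl | ⟨u, u', h4, h5, h6⟩)
          · exact Or.inl rfl
          · exact Or.inr ⟨u, u', h4, h5, h6⟩
          · exact Or.inr ⟨w, w', h1, h2, h3⟩
          · refine Or.inr ⟨w, u', h1, h5, ?_⟩
            rw [h3, ← h6]
            apply hkey
            rw [← h2, ← h4]
      mul' := by
        rintro v v' x x' (rfl | ⟨w, w', h1, h2, h3⟩) (rfl | ⟨u, u', h4, h5, h6⟩)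
        · exact Or.inl rfl
        · left
          rw [h4, h5, hM1, hM1, h6]
        · left
          rw [h1, h2, hM2, hM2, h3]
        · left
          rw [h1, h2, h4, h5, hM2, hM2, h3, hM1, hM1, h6] }
  have hR : OpH (OpP (OpS C0)) ρ.Quotient inferInstance := by
    apply opH_opP_opH
    exact ⟨V, inferInstance, hVP, quotHom ρ, quotHom_surjective ρ⟩
  refine ⟨inferInstance, ρ.Quotient, inferInstance, hR, ⟨fun s => (til s : ρ.Quotient), ?_⟩, ?_⟩
  · intro a c
    show ((til (a * c) : V) : ρ.Quotient) = ((til a * til c : V) : ρ.Quotient)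
    rw [Con.eq]
    right
    refine ⟨FreeSemigroup.of (a * c), FreeSemigroup.of a * FreeSemigroup.of c, ?_, ?_, ?_⟩
    · rw [hevof]
    · rw [map_mul, hevof, hevof]
    · rw [map_mul, hvalof, hvalof, hvalof]
  · intro a c hac
    have hac' : ((til a : V) : ρ.Quotient) = ((til c : V) : ρ.Quotient) := hac
    rw [Con.eq] at hac'
    rcases hac' with h1 | ⟨w, w', h1, h2, h3⟩
    · have h4 := congrFun h1 none
      exact Option.some.inj h4
    · rw [← hevof] at h1 h2
      have h4 := hkey _ _ h1
      have h5 := hkey _ _ h2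
      rw [hvalof] at h4 h5
      rw [h4, h5, h3]

end Pool.Agent.Helper87.Birk
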