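import Pool.Agent.Helper87.Birk.Prim
import Pool.Agent.Helper87.Birk.Shps2

/-!
# Bounded formulas and their primitive recursiveness
-/

set_option autoImplicit false

namespace Pool.Agent.Helper87.Birk

/-- the `i`-th digit of `c` in base `b` -/
def dg (b c i : ℕ) : ℕ := c / b ^ i % b

/-- `f` defines a semigroup structure on `{0, …, n - 1}` -/
def SgOn (n : ℕ) (f : ℕ → ℕ → ℕ) : Prop :=
  0 < n ∧ (∀ x < n, ∀ y < n, f x y < n) ∧
    ∀ x < n, ∀ y < n, ∀ z < n, f (f x y) z = f x (f y z)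

/-- bounded formula for `0`-simplicity -/
def FC0 (n : ℕ) (f : ℕ → ℕ → ℕ) : Prop :=
  SgOn n f ∧ ∃ z < n, (∀ x < n, f z x = z ∧ f x z = z) ∧ (∃ x < n, ∃ y < n, f x y ≠ z) ∧
    ∀ x < n, x ≠ z → ∀ y < n, ∃ p < n, ∃ q < n, f (f p x) q = y

/-- bit of a coded binary relation on `{0, …, n - 1}` -/
def bt (n c x y : ℕ) : Prop := dg 2 c (x * n + y) = 1

/-- bounded formula for membership in `ℍ𝕊(C₀)` -/
def FHS (n : ℕ) (f : ℕ → ℕ → ℕ) : Prop :=
  SgOn n f ∧ ∃ e < 2 ^ (n * n), ∃ r < 2 ^ (n * n), ∃ p < 2 ^ (n * n),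
    (∀ x < n, ∀ y < n, bt n e x y → bt n r x y) ∧
    (∀ x < n, ∀ y < n, ∀ w < n, bt n r x y → bt n r y w → bt n r x w) ∧
    (∀ x < n, bt n p x x) ∧
    (∀ x < n, ∀ y < n, ∀ w < n, bt n e x y → bt n p y w → bt n p x (f x w)) ∧
    (∀ x < n, ∀ y < n, ∀ w < n, ∀ w' < n, bt n e x y → bt n r y x → bt n p y w → bt n p y w' →
      f x w = f x w' → w = w') ∧
    ((∀ x < n, ∀ y < n, bt n e x y) ∨ ∃ z < n, (∀ w < n, f z w = z ∧ f w z = z) ∧
      ∀ x < n, ∀ y < n, ¬ bt n e x y → f x y = z)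

/-- size of a coded semigroup -/
def cn (b w : ℕ) : ℕ := dg b w 0

/-- multiplication of a coded semigroup -/
def cm (b w x y : ℕ) : ℕ := dg b w (1 + x * b + y)

/-- generators of a coded semigroup -/
def cg (b w t : ℕ) : ℕ := dg b w (1 + b * b + t)

/-- validity of a coded tuple -/
def Vld (G : ℕ → ℕ → Prop) (b K v : ℕ) : Prop :=
  ∀ w < K, (G b w ∧ dg b v w < cn b w) ∨ (¬ G b w ∧ dg b v w = 0)

/-- bounded formula for membership in `ℍℙ(Φ)` -/
def FHP (G : ℕ → ℕ → Prop) (b K m : ℕ) (f : ℕ → ℕ → ℕ) : Prop :=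
  SgOn m f ∧ ∃ p < m ^ (b ^ K),
    (∀ v < b ^ K, ∀ v' < b ^ K, ∀ v'' < b ^ K, Vld G b K v → Vld G b K v' → Vld G b K v'' →
      (∀ w < K, G b w → dg b v'' w = cm b w (dg b v w) (dg b v' w)) →
      dg m p v'' = f (dg m p v) (dg m p v')) ∧
    ∀ s < m, ∃ v < b ^ K, Vld G b K v ∧ dg m p v = s

/-- bounded formula for membership in `𝕊ℍℙ𝕊(C₀)` -/
def FSep (β m : ℕ) (f : ℕ → ℕ → ℕ) : Prop :=
  SgOn m f ∧ ∀ a < m, ∀ b < m, ∀ c < m, ∀ d < m, f a b ≠ f c d →
    ∃ w < β ^ (1 + β * β + m), FHS (cn β w) (cm β w) ∧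
      (∀ x < m, cg β w x < cn β w) ∧
      (∀ x < cn β w, ∀ a' < m, ∀ c' < m,
        cm β w x (cm β w (cg β w a') (cg β w c')) = cm β w x (cg β w (f a' c')) ∧
        cm β w (cm β w (cg β w a') (cg β w c')) x = cm β w (cg β w (f a' c')) x) ∧
      cm β w (cg β w a) (cg β w b) ≠ cm β w (cg β w c) (cg β w d)

section

variable {α : Type} [Primcodable α]

@[fun_prop] theorem pr_dg {f g h : α → ℕ} (hf : Primrec f) (hg : Primrec g) (hh : Primrec h) :
    Primrec (fun x => dg (f x) (g x) (h x)) := by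
  unfold dg; fun_prop

@[fun_prop] theorem pr_cn {f g : α → ℕ} (hf : Primrec f) (hg : Primrec g) :
    Primrec (fun x => cn (f x) (g x)) := by
  unfold cn; fun_prop

@[fun_prop] theorem pr_cm {f g h k : α → ℕ} (hf : Primrec f) (hg : Primrec g) (hh : Primrec h)
    (hk : Primrec k) : Primrec (fun x => cm (f x) (g x) (h x) (k x)) := by
  unfold cm; fun_prop

@[fun_prop] theorem pr_cg {f g h : α → ℕ} (hf : Primrec f) (hg : Primrec g) (hh : Primrec h) :
    Primrec (fun x => cg (f x) (g x) (h x)) := by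
  unfold cg; fun_prop

theorem pp_bt {f g h k : α → ℕ} (hf : Primrec f) (hg : Primrec g) (hh : Primrec h)
    (hk : Primrec k) : PrimrecPred (fun x => bt (f x) (g x) (h x) (k x)) := by
  unfold bt; apply pp_eq <;> fun_prop

theorem pp_SgOn {n : α → ℕ} {F : α × ℕ × ℕ → ℕ} (hn : Primrec n) (hF : Primrec F) :
    PrimrecPred fun a => SgOn (n a) (fun x y => F (a, x, y)) := by
  unfold SgOn
  repeat' first
    | apply pp_all | apply pp_ex | apply pp_and | apply pp_or | apply pp_ne | apply pp_not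
    | apply pp_imp | apply pp_eq | apply pp_lt
  all_goals fun_prop

theorem pp_FC0 {n : α → ℕ} {F : α × ℕ × ℕ → ℕ} (hn : Primrec n) (hF : Primrec F) :
    PrimrecPred fun a => FC0 (n a) (fun x y => F (a, x, y)) := by
  unfold FC0
  refine pp_and (pp_SgOn hn hF) ?_
  repeat' first
    | apply pp_all | apply pp_ex | apply pp_and | apply pp_or | apply pp_ne | apply pp_not
    | apply pp_imp | apply pp_eq | apply pp_lt
  all_goals fun_prop

theorem pp_FHS {n : α → ℕ} {F : α × ℕ × ℕ → ℕ} (hn : Primrec n) (hF : Primrec F) :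
    PrimrecPred fun a => FHS (n a) (fun x y => F (a, x, y)) := by
  unfold FHS
  refine pp_and (pp_SgOn hn hF) ?_
  repeat' first
    | apply pp_all | apply pp_ex | apply pp_and | apply pp_or | apply pp_bt | apply pp_ne
    | apply pp_not | apply pp_imp | apply pp_eq | apply pp_lt
  all_goals fun_prop

end

end Pool.Agent.Helper87.Birk
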