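import Pool.Agent.Helper87.Birk.Form

/-!
# Primitive recursiveness of the three decision formulas
-/

set_option autoImplicit false

namespace Pool.Agent.Helper87.Birk

/-- coded semigroup is `0`-simple -/
def GC0 (b w : ℕ) : Prop := FC0 (cn b w) (cm b w)

/-- coded semigroup is in `ℍ𝕊(C₀)` -/
def GHS (b w : ℕ) : Prop := FHS (cn b w) (cm b w)

theorem pp_GC0' : PrimrecPred fun q : ℕ × ℕ => GC0 q.1 q.2 :=
  pp_FC0 (n := fun q : ℕ × ℕ => cn q.1 q.2)
    (F := fun q : (ℕ × ℕ) × ℕ × ℕ => cm q.1.1 q.1.2 q.2.1 q.2.2) (by fun_prop) (by fun_prop)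

theorem pp_GHS' : PrimrecPred fun q : ℕ × ℕ => GHS q.1 q.2 :=
  pp_FHS (n := fun q : ℕ × ℕ => cn q.1 q.2)
    (F := fun q : (ℕ × ℕ) × ℕ × ℕ => cm q.1.1 q.1.2 q.2.1 q.2.2) (by fun_prop) (by fun_prop)

section

variable {α : Type} [Primcodable α]

theorem pp_GHS {f g : α → ℕ} (hf : Primrec f) (hg : Primrec g) :
    PrimrecPred fun x => FHS (cn (f x) (g x)) (cm (f x) (g x)) :=
  pp_GHS'.comp (hf.pair hg)

theorem pp_Vld {G : ℕ → ℕ → Prop} (hG : PrimrecPred fun q : ℕ × ℕ => G q.1 q.2)
    {b K v : α → ℕ} (hb : Primrec b) (hK : Primrec K) (hv : Primrec v) :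
    PrimrecPred fun a => Vld G (b a) (K a) (v a) := by
  have hG' : ∀ {β : Type} [Primcodable β] {f g : β → ℕ}, Primrec f → Primrec g →
      PrimrecPred fun x => G (f x) (g x) := fun hf hg => hG.comp (hf.pair hg)
  unfold Vld
  repeat' first
    | apply pp_all | apply pp_ex | apply pp_and | apply pp_or | apply pp_ne | apply pp_not
    | apply pp_imp | apply pp_eq | apply pp_lt | apply hG'
  all_goals fun_prop

theorem pp_FHP {G : ℕ → ℕ → Prop} (hG : PrimrecPred fun q : ℕ × ℕ => G q.1 q.2)
    {b K m : α → ℕ} {F : α × ℕ × ℕ → ℕ} (hb : Primrec b) (hK : Primrec K) (hm : Primrec m)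
    (hF : Primrec F) :
    PrimrecPred fun a => FHP G (b a) (K a) (m a) (fun x y => F (a, x, y)) := by
  have hG' : ∀ {β : Type} [Primcodable β] {f g : β → ℕ}, Primrec f → Primrec g →
      PrimrecPred fun x => G (f x) (g x) := fun hf hg => hG.comp (hf.pair hg)
  unfold FHP
  refine pp_and (pp_SgOn hm hF) ?_
  repeat' first
    | apply pp_Vld hG | apply pp_all | apply pp_ex | apply pp_and | apply pp_or | apply pp_ne
    | apply pp_not | apply pp_imp | apply pp_eq | apply pp_lt | apply hG'
  all_goals fun_prop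

theorem pp_FSep {b m : α → ℕ} {F : α × ℕ × ℕ → ℕ} (hb : Primrec b) (hm : Primrec m)
    (hF : Primrec F) :
    PrimrecPred fun a => FSep (b a) (m a) (fun x y => F (a, x, y)) := by
  unfold FSep
  refine pp_and (pp_SgOn hm hF) ?_
  repeat' first
    | apply pp_GHS | apply pp_all | apply pp_ex | apply pp_and | apply pp_or | apply pp_ne
    | apply pp_not | apply pp_imp | apply pp_eq | apply pp_lt
  all_goals fun_prop

end

theorem pr_tableMul' : Primrec fun q : List (List ℕ) × ℕ × ℕ => tableMul q.1 q.2.1 q.2.2 := by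
  unfold tableMul
  exact (Primrec.list_getD (0 : ℕ)).comp ((Primrec.list_getD ([] : List ℕ)).comp Primrec.fst
    (Primrec.fst.comp Primrec.snd)) (Primrec.snd.comp Primrec.snd)

theorem pr_rowLen : Primrec fun q : List (List ℕ) × ℕ => (q.1.getD q.2 []).length :=
  Primrec.list_length.comp (Primrec.list_getD ([] : List ℕ))

theorem isMulTable_iff (t : List (List ℕ)) : IsMulTable t ↔
    (∀ i < t.length, (t.getD i []).length = t.length) ∧ SgOn t.length (tableMul t) := by
  constructor
  · intro h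
    refine ⟨?_, List.length_pos_iff.mpr h.nonempty, ?_, h.assoc⟩
    · intro i hi
      rw [List.getD_eq_getElem _ _ hi]
      exact h.rows _ (List.getElem_mem hi)
    · intro x hx y hy
      exact h.lt ⟨x, hx⟩ ⟨y, hy⟩
  · rintro ⟨h1, h2, h3, h4⟩
    have hrow : ∀ r ∈ t, r.length = t.length := by
      intro r hr
      obtain ⟨i, hi, rfl⟩ := List.getElem_of_mem hr
      have := h1 i hi
      rwa [List.getD_eq_getElem _ _ hi] at this
    refine ⟨List.length_pos_iff.mp h2, hrow, ?_, h4⟩
    intro r hr a ha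
    have hl := hrow r hr
    obtain ⟨i, hi, rfl⟩ := List.getElem_of_mem hr
    obtain ⟨k, hk, rfl⟩ := List.getElem_of_mem ha
    have h5 := h3 i hi k (by rw [← hl]; exact hk)
    have h6 : tableMul t i k = t[i][k] := by
      simp [tableMul, hi, hk]
    rwa [h6] at h5

theorem pp_isMulTable : PrimrecPred fun t : List (List ℕ) => IsMulTable t := by
  have h1 : PrimrecPred fun t : List (List ℕ) =>
      (∀ i < t.length, (t.getD i []).length = t.length) ∧ SgOn t.length (tableMul t) := by
    refine pp_and ?_ (pp_SgOn (n := fun t : List (List ℕ) => t.length)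
      (F := fun q : List (List ℕ) × ℕ × ℕ => tableMul q.1 q.2.1 q.2.2)
      Primrec.list_length pr_tableMul')
    refine pp_all Primrec.list_length ?_
    exact pp_eq pr_rowLen (Primrec.list_length.comp Primrec.fst)
  exact h1.of_eq fun t => (isMulTable_iff t).symm

end Pool.Agent.Helper87.Birk
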