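import Pool.Agent.Helper87.Birk.Cert

/-!
# Bounded quotients of the factors of a direct product
-/

set_option autoImplicit false

namespace Pool.Agent.Helper87.Birk

/-- `x` and `y` are identified by all homomorphisms to magmas on `Fin B`. -/
def kap (B : ℕ) {U : Type} [Mul U] (x y : U) : Prop :=
  ∀ (mul : Fin B → Fin B → Fin B) (θ : U → Fin B), (∀ a b, θ (a * b) = mul (θ a) (θ b)) →
    θ x = θ y

/-- the congruence `kap` -/
def kapCon (B : ℕ) (U : Type) [Mul U] : Con U where
  r := kap B
  iseqv := ⟨fun _ _ _ _ => rfl, fun h mul θ hθ => (h mul θ hθ).symm,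
    fun h h' mul θ hθ => (h mul θ hθ).trans (h' mul θ hθ)⟩
  mul' := by
    intro w x y z h h' mul θ hθ
    rw [hθ, hθ, h mul θ hθ, h' mul θ hθ]

theorem kap_recog {U A O : Type} [Semigroup U] [Finite A] [Finite O] (f : U → A) (D : U → O)
    (hD : ∀ w w' v, f w = f w' → D (w * v) = D (w' * v)) (B : ℕ)
    (hB : (Nat.card A * Nat.card O + 1) ^ (Nat.card A * Nat.card O + 1) ≤ B)
    {x y : U} (h : kap B x y) : D x = D y := by
  classical
  set Fut : U → O × (U → O) := fun w => (D w, fun v => D (w * v)) with hFut
  -- finiteness of the range of `Fut`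
  choose c hc using fun p : Set.range Fut => p.2
  have hinj : Function.Injective (fun p : Set.range Fut => (f (c p), D (c p))) := by
    intro p p' hpp
    simp only [Prod.mk.injEq] at hpp
    apply Subtype.ext
    rw [← hc p, ← hc p']
    simp only [hFut, Prod.mk.injEq]
    exact ⟨hpp.2, funext fun v => hD _ _ v hpp.1⟩
  have hfin : Finite (Set.range Fut) := Finite.of_injective _ hinj
  have hcard : Nat.card (Set.range Fut) ≤ Nat.card A * Nat.card O := by
    rw [← Nat.card_prod]
    exact Nat.card_le_card_of_injective _ hinj
  set act : U → Option (Set.range Fut) → Option (Set.range Fut) := fun u s =>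
    match s with
    | none => some ⟨Fut u, u, rfl⟩
    | some p => some ⟨(p.1.2 u, fun v => p.1.2 (u * v)), by
        obtain ⟨w, hw⟩ := p.2
        refine ⟨w * u, ?_⟩
        rw [← hw]
        simp only [hFut, mul_assoc]⟩ with hact
  have hactmul : ∀ u v, act (u * v) = act v ∘ act u := by
    intro u v
    funext s
    rcases s with _ | p
    · simp only [hact, Function.comp, hFut, mul_assoc]
    · simp only [hact, Function.comp, mul_assoc]
  have hQ : Nat.card (Option (Set.range Fut) → Option (Set.range Fut)) ≤ B := by
    rw [Nat.card_fun]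
    refine le_trans ?_ hB
    have h1 : Nat.card (Option (Set.range Fut)) ≤ Nat.card A * Nat.card O + 1 := by
      rw [Finite.card_option]; omega
    exact (Nat.pow_le_pow_left h1 _).trans (Nat.pow_le_pow_right (Nat.succ_pos _) h1)
  obtain ⟨e, he⟩ : ∃ e : (Option (Set.range Fut) → Option (Set.range Fut)) → Fin B,
      Function.Injective e := by
    have := Fintype.ofFinite (Option (Set.range Fut) → Option (Set.range Fut))
    rw [Nat.card_eq_fintype_card] at hQ
    obtain ⟨e⟩ := Function.Embedding.nonempty_of_card_le
      (α := Option (Set.range Fut) → Option (Set.range Fut)) (β := Fin B) (by simpa using hQ)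
    exact ⟨e, e.injective⟩
  have hinv : ∀ q, Function.invFun e (e q) = q := fun q => Function.leftInverse_invFun he q
  have h1 := h (fun a b => e (Function.invFun e b ∘ Function.invFun e a)) (fun u => e (act u))
    (by intro a b; simp only [hinv, hactmul])
  have h2 := congrFun (he h1) none
  have h3 : Fut x = Fut y := by
    have := Option.some.inj h2
    exact congrArg Subtype.val this
  exact congrArg Prod.fst h3

theorem kap_update {ι : Type} {U : ι → Type} [∀ i, Semigroup (U i)] [DecidableEq ι] {S : Type}
    [Semigroup S] [Finite S] (φ : (∀ i, U i) →ₙ* S) (B : ℕ)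
    (hB : (Nat.card S * (Nat.card S + 1) + 1) ^ (Nat.card S * (Nat.card S + 1) + 1) ≤ B)
    (c : ∀ i, U i) (hc : ∀ i, ∃ p q, c i = p * q) (i : ι) {x y : U i}
    (hx : ∃ p q, x = p * q) (hy : ∃ p q, y = p * q) (h : kap B x y) :
    φ (Function.update c i x) = φ (Function.update c i y) := by
  classical
  choose p q hpq using hc
  set D : U i → Option S := fun w =>
    if ∃ a b, w = a * b then some (φ (Function.update c i w)) else none with hDdef
  have hD : ∀ w w' v, φ (Function.update p i w) = φ (Function.update p i w') →
      D (w * v) = D (w' * v) := by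
    intro w w' v hww
    have key : ∀ w, D (w * v) = some (φ (Function.update p i w) * φ (Function.update q i v)) := by
      intro w
      rw [hDdef]
      simp only
      rw [if_pos ⟨w, v, rfl⟩, ← map_mul]
      congr 2
      funext j
      by_cases hj : j = i
      · subst hj; simp
      · simp [hj, hpq j]
    rw [key, key, hww]
  have h1 := kap_recog (fun w => φ (Function.update p i w)) D hD B
    (by rw [Finite.card_option]; exact hB) h
  rw [hDdef] at h1
  simp only [if_pos hx, if_pos hy] at h1
  exact Option.some.inj h1

theorem kap_prod {ι : Type} [Finite ι] {U : ι → Type} [∀ i, Semigroup (U i)] {S : Type}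
    [Semigroup S] [Finite S] (φ : (∀ i, U i) →ₙ* S) (B : ℕ)
    (hB : (Nat.card S * (Nat.card S + 1) + 1) ^ (Nat.card S * (Nat.card S + 1) + 1) ≤ B)
    (v v' : ∀ i, U i) (hv : ∀ i, ∃ p q, v i = p * q) (hv' : ∀ i, ∃ p q, v' i = p * q)
    (h : ∀ i, kap B (v i) (v' i)) : φ v = φ v' := by
  classical
  have := Fintype.ofFinite ι
  have key : ∀ s : Finset ι, φ (fun i => if i ∈ s then v' i else v i) = φ v := by
    intro s
    induction s using Finset.induction_on with
    | empty => simp
    | insert i s his ih =>
      rw [← ih]
      set c : ∀ i, U i := fun i => if i ∈ s then v' i else v i with hc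
      have h1 : (fun j => if j ∈ insert i s then v' j else v j) = Function.update c i (v' i) := by
        funext j
        by_cases hj : j = i
        · subst hj; simp
        · simp [hj, hc]
      have h2 : c = Function.update c i (v i) := by
        funext j
        by_cases hj : j = i
        · subst hj; simp [hc, his]
        · simp [hj]
      rw [h1]
      conv_rhs => rw [h2]
      apply kap_update φ B hB c _ i (hv' i) (hv i)
      · intro mul θ hθ; exact (h i mul θ hθ).symm
      · intro j
        by_cases hj : j ∈ s
        · simp only [hc, if_pos hj]; exact hv' j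
        · simp only [hc, if_neg hj]; exact hv j
  have := key Finset.univ
  simpa using this.symm

theorem card_kap_le {U X : Type} [Semigroup U] [Finite X] (γ : X → U)
    (hγ : Subsemigroup.closure (Set.range γ) = ⊤) (B : ℕ) (hB : 0 < B) :
    Finite (kapCon B U).Quotient ∧
      Nat.card (kapCon B U).Quotient ≤ B ^ (((B ^ B) ^ B) * B ^ (Nat.card X)) := by
  classical
  set Ψ : U → ((Fin B → Fin B → Fin B) × (X → Fin B) → Fin B) := fun x p =>
    if h : ∃ θ : U → Fin B, (∀ a b, θ (a * b) = p.1 (θ a) (θ b)) ∧ ∀ s, θ (γ s) = p.2 s then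
      h.choose x else ⟨0, hB⟩ with hΨ
  have h1 : ∀ x y, kap B x y → Ψ x = Ψ y := by
    intro x y hxy
    funext p
    simp only [hΨ]
    split_ifs with h
    · exact hxy p.1 h.choose h.choose_spec.1
    · rfl
  have h2 : ∀ x y, Ψ x = Ψ y → kap B x y := by
    intro x y hxy mul θ hθ
    have h : ∃ θ' : U → Fin B, (∀ a b, θ' (a * b) = mul (θ' a) (θ' b)) ∧
        ∀ s, θ' (γ s) = (θ ∘ γ) s := ⟨θ, hθ, fun _ => rfl⟩
    have h3 := congrFun hxy (mul, θ ∘ γ)
    simp only [hΨ] at h3
    rw [dif_pos h, dif_pos h] at h3
    have h4 : ∀ u, h.choose u = θ u := by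
      intro u
      have hu : u ∈ Subsemigroup.closure (Set.range γ) := by rw [hγ]; trivial
      induction hu using Subsemigroup.closure_induction with
      | mem x hx => obtain ⟨s, rfl⟩ := hx; exact h.choose_spec.2 s
      | mul a b _ _ ha hb => rw [h.choose_spec.1, hθ, ha, hb]
    rw [← h4, ← h4, h3]
  have hinj : Function.Injective (fun c : (kapCon B U).Quotient =>
      Con.liftOn c Ψ (fun a b hab => h1 a b hab)) := by
    intro c d
    induction c using Con.induction_on with
    | H x =>
      induction d using Con.induction_on with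
      | H y =>
        intro hxy
        exact ((kapCon B U).eq).mpr (h2 x y hxy)
  refine ⟨Finite.of_injective _ hinj, ?_⟩
  refine (Nat.card_le_card_of_injective _ hinj).trans (le_of_eq ?_)
  simp [Nat.card_fun, Nat.card_prod]

end Pool.Agent.Helper87.Birk
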