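import Pool.Agent.Helper87.Birk.Code

/-!
# The formulas decide the three classes
-/

set_option autoImplicit false

namespace Pool.Agent.Helper87.Birk

theorem cls_HP_iff {Φ : SgClass} {G : ℕ → ℕ → Prop}
    (hiso : ∀ {S S' : Type} {hS : Semigroup S} {hS' : Semigroup S'},
      S ≃* S' → Φ S hS → Φ S' hS')
    (hG : ∀ b w, G b w ↔ Cls Φ (cn b w) (cm b w)) (hbool : Φ Bool boolSg) {b k m : ℕ}
    {f : ℕ → ℕ → ℕ} (hb : 0 < b)
    (hwit : ∀ h : SgOn m f, OpH (OpP Φ) (Fin m) (toSg m f h) →
      @Wit Φ (Fin m) (toSg m f h) b k) :
    Cls (OpH (OpP Φ)) m f ↔ FHP G b (b ^ (1 + b * b + k)) m f := by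
  classical
  constructor
  · rintro ⟨hs, hHP⟩
    obtain ⟨I, W, hW, γ, φ, hfin, hcard, hΦ, hγ⟩ := hwit hs hHP
    have hm : 0 < m := hs.1
    have hk : 0 < k := by
      obtain ⟨x, _⟩ := hγ ⟨0, hm⟩
      exact Fin.pos x
    choose w hw e he heγ using fun i => exists_code (hcard i) (γ i)
    set K := b ^ (1 + b * b + k) with hK
    have hpos : ∀ i, 0 < cn b (w i) := fun i => Fin.pos (e i (γ i ⟨0, hk⟩))
    have hcode : ∀ i, ∃ hs : SgOn (cn b (w i)) (cm b (w i)),
        Nonempty (@MulEquiv (W i) (Fin (cn b (w i))) _ (toSg _ _ hs).toMul) := fun i =>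
      sgOn_of_equiv (hpos i) (e i) (he i)
    have hGi : ∀ i, Φ (W i) (hW i) → G b (w i) := by
      intro i hΦi
      obtain ⟨hs, ⟨e'⟩⟩ := hcode i
      rw [hG]
      exact ⟨hs, hiso e' hΦi⟩
    -- decoding of tuples
    let u : ∀ i, ℕ → W i := fun i v => if h : dg b v (w i) < cn b (w i) then
      (e i).symm ⟨dg b v (w i), h⟩ else γ i ⟨0, hk⟩
    have hu : ∀ i v, dg b v (w i) < cn b (w i) → (e i (u i v) : ℕ) = dg b v (w i) := by
      intro i v h
      simp only [u, dif_pos h, Equiv.apply_symm_apply]
    obtain ⟨p, hp, hp'⟩ := exists_dg m (b ^ K) (fun v => (φ (fun i => u i v) : ℕ))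
      (fun v _ => Fin.is_lt _)
    refine ⟨hs, p, hp, ?_, ?_⟩
    · intro v hv v' hv' v'' hv'' hval hval' hval'' hmul
      rw [hp' _ hv, hp' _ hv', hp' _ hv'']
      have h1 : (fun i => u i v'') = (fun i => u i v) * (fun i => u i v') := by
        funext i
        show u i v'' = u i v * u i v'
        rcases hΦ i with hΦi | hsub
        · have hGw := hGi i hΦi
          have hlt : dg b v (w i) < cn b (w i) := by
            rcases hval _ (hw i) with h | h
            · exact h.2
            · exact absurd hGw h.1
          have hlt' : dg b v' (w i) < cn b (w i) := by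
            rcases hval' _ (hw i) with h | h
            · exact h.2
            · exact absurd hGw h.1
          have hlt'' : dg b v'' (w i) < cn b (w i) := by
            rcases hval'' _ (hw i) with h | h
            · exact h.2
            · exact absurd hGw h.1
          apply (e i).injective
          apply Fin.ext
          rw [hu i v'' hlt'', hmul _ (hw i) hGw, ← hu i v hlt, ← hu i v' hlt', he i]
        · exact Subsingleton.elim _ _
      have h2 : φ (fun i => u i v'') = (toSg m f hs).mul (φ (fun i => u i v))
          (φ (fun i => u i v')) := by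
        rw [h1]
        exact @MulHom.map_mul' _ (Fin m) _ (toSg m f hs).toMul φ _ _
      exact congrArg Fin.val h2
    · intro s hs'
      obtain ⟨x, hx⟩ := hγ ⟨s, hs'⟩
      obtain ⟨v, hv, hv'⟩ := exists_dg b K (fun w => if G b w then
        (if cg b w x < cn b w then cg b w x else 0) else 0) (by
          intro w _
          split_ifs
          · exact dg_lt hb _ _
          · exact hb
          · exact hb)
      have hval : Vld G b K v := by
        intro w hw
        rw [hv' w hw]
        by_cases hGw : G b w
        · left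
          refine ⟨hGw, ?_⟩
          rw [if_pos hGw]
          split_ifs with h
          · exact h
          · exact ((hG b w).mp hGw).1.1
        · right
          exact ⟨hGw, by rw [if_neg hGw]⟩
      refine ⟨v, hv, hval, ?_⟩
      rw [hp' v hv]
      have h1 : (fun i => u i v) = fun i => γ i x := by
        funext i
        rcases hΦ i with hΦi | hsub
        · have hGw := hGi i hΦi
          have h2 : dg b v (w i) = cg b (w i) x := by
            rw [hv' _ (hw i)]
            simp only [if_pos hGw]
            rw [if_pos]
            rw [heγ i x]; exact Fin.is_lt _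
          apply (e i).injective
          apply Fin.ext
          rw [hu i v (by rw [h2, heγ i x]; exact Fin.is_lt _), h2, heγ]
        · exact Subsingleton.elim _ _
      rw [h1, hx]
  · rintro ⟨hs, p, hp, hmul, hsurj⟩
    refine ⟨hs, ?_⟩
    set K := b ^ (1 + b * b + k) with hK
    have hm : 0 < m := hs.1
    let J : Type := {w : Fin K // G b w}
    have hsg : ∀ w : J, SgOn (cn b w.1) (cm b w.1) := fun w => ((hG _ _).mp w.2).1
    let T : Option J → Type := fun o => match o with
      | none => Bool
      | some w => Fin (cn b w.1)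
    let hT : ∀ o, Semigroup (T o) := fun o => match o with
      | none => boolSg
      | some w => toSg _ _ (hsg w)
    have hTΦ : ∀ o, Φ (T o) (hT o) := by
      intro o
      rcases o with _ | w
      · exact hbool
      · exact ((hG _ _).mp w.2).2
    have hP : OpP Φ (∀ o, T o) inferInstance := opP_of_finite hT hTΦ
    have henc : ∀ x : (∀ o, T o), ∃ v < b ^ K, ∀ w : ℕ, ∀ hw : w < K, dg b v w =
        if h : G b w then ((show Fin (cn b w) from x (some ⟨⟨w, hw⟩, h⟩)) : ℕ) else 0 := by
      intro x
      obtain ⟨v, hv, hv'⟩ := exists_dg b K (fun w => if h : ∃ hw : w < K, G b w then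
        ((show Fin (cn b w) from x (some ⟨⟨w, h.1⟩, h.2⟩)) : ℕ) else 0) (by
          intro w _
          dsimp only
          split_ifs with h
          · exact (Fin.is_lt _).trans (dg_lt hb _ _)
          · exact hb)
      refine ⟨v, hv, ?_⟩
      intro w hw
      rw [hv' w hw]
      by_cases hGw : G b w
      · have h1 : ∃ hw : w < K, G b w := ⟨hw, hGw⟩
        simp only [dif_pos h1, dif_pos hGw]
      · have h1 : ¬ ∃ hw : w < K, G b w := fun h => hGw h.2
        simp only [dif_neg h1, dif_neg hGw]
    choose enc henc1 henc2 using henc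
    have hval : ∀ x, Vld G b K (enc x) := by
      intro x w hw
      rw [henc2 x w hw]
      by_cases hGw : G b w
      · left
        refine ⟨hGw, ?_⟩
        rw [dif_pos hGw]
        exact Fin.is_lt _
      · right
        exact ⟨hGw, by rw [dif_neg hGw]⟩
    refine ⟨∀ o, T o, inferInstance, hP, @MulHom.mk _ (Fin m) _ (toSg m f hs).toMul
      (fun x => ⟨dg m p (enc x), dg_lt hm _ _⟩) ?_, ?_⟩
    · intro x y
      apply Fin.ext
      show dg m p (enc (x * y)) = f (dg m p (enc x)) (dg m p (enc y))
      apply hmul _ (henc1 x) _ (henc1 y) _ (henc1 _) (hval x) (hval y) (hval _)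
      intro w hw hGw
      rw [henc2 _ w hw, henc2 _ w hw, henc2 _ w hw, dif_pos hGw, dif_pos hGw, dif_pos hGw]
      rfl
    · intro s
      obtain ⟨v, hv, hval', hvs⟩ := hsurj s s.2
      let x : ∀ o, T o := fun o => match o with
        | none => true
        | some w => ⟨dg b v w.1, by
            rcases hval' w.1 w.1.2 with h | h
            · exact h.2
            · exact absurd w.2 h.1⟩
      refine ⟨x, ?_⟩
      apply Fin.ext
      show dg m p (enc x) = s
      rw [← hvs]
      congr 1
      apply dg_inj b K (henc1 x) hv
      intro w hw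
      rw [henc2 x w hw]
      by_cases hGw : G b w
      · rw [dif_pos hGw]
      · rw [dif_neg hGw]
        rcases hval' w hw with h | h
        · exact absurd h.1 hGw
        · exact h.2.symm

end Pool.Agent.Helper87.Birk
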