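import Pool.Agent.Helper87.Birk.BdHP

/-!
# Elementary properties of the Birkhoff operators
-/

set_option autoImplicit false

namespace Pool.Agent.Helper87.Birk

theorem opP_of_finite {Φ : SgClass} {ι : Type} [Finite ι] [Nonempty ι] {W : ι → Type}
    (hW : ∀ i, Semigroup (W i)) (h : ∀ i, Φ (W i) (hW i)) :
    OpP Φ (∀ i, W i) inferInstance := by
  have hpos : 0 < Nat.card ι := Nat.card_pos
  obtain ⟨n, hn⟩ := Nat.exists_eq_succ_of_ne_zero hpos.ne'
  have e : Fin (n + 1) ≃ ι := (Finite.equivFinOfCardEq hn).symm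
  refine ⟨n, fun k => W (e k), fun k => hW (e k), fun k => h (e k), ⟨?_⟩⟩
  exact { (Equiv.piCongrLeft W e).symm with
          map_mul' := fun v w => rfl }

theorem opH_opP_opH {Φ : SgClass} {S : Type} {hS : Semigroup S} (h : OpH (OpP (OpH Φ)) S hS) :
    OpH (OpP Φ) S hS := by
  obtain ⟨V, hV, ⟨n, T, hT, hΦ, ⟨e⟩⟩, f, hf⟩ := h
  choose U hU hU' g hg using hΦ
  let G : (∀ i, U i) →ₙ* (∀ i, T i) := ⟨fun v i => g i (v i), fun v w => by
    funext i; exact map_mul _ _ _⟩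
  have hG : Function.Surjective G := by
    intro v
    choose w hw using fun i => hg i (v i)
    exact ⟨w, funext hw⟩
  refine ⟨∀ i, U i, inferInstance, ⟨n, U, hU, hU', ⟨MulEquiv.refl _⟩⟩,
    (f.comp (e.symm : (∀ i, T i) →ₙ* V)).comp G, ?_⟩
  exact (hf.comp e.symm.surjective).comp hG

theorem opS_mono {Φ Ψ : SgClass} (h : ∀ (S : Type) (hS : Semigroup S), Φ S hS → Ψ S hS)
    {S : Type} {hS : Semigroup S} (hΦ : OpS Φ S hS) : OpS Ψ S hS := by
  obtain ⟨h1, T, hT, h2, f, hf⟩ := hΦ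
  exact ⟨h1, T, hT, h _ _ h2, f, hf⟩

theorem opH_of_mulEquiv {Φ : SgClass} {S S' : Type} {hS : Semigroup S} {hS' : Semigroup S'}
    (e : S ≃* S') (h : OpH Φ S hS) : OpH Φ S' hS' := by
  obtain ⟨T, hT, h1, f, hf⟩ := h
  exact ⟨T, hT, h1, (e : S →ₙ* S').comp f, e.surjective.comp hf⟩

theorem opS_of_mulEquiv {Φ : SgClass} {S S' : Type} {hS : Semigroup S} {hS' : Semigroup S'}
    (e : S ≃* S') (h : OpS Φ S hS) : OpS Φ S' hS' := by
  obtain ⟨h0, T, hT, h1, f, hf⟩ := h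
  exact ⟨h0.map e, T, hT, h1, f.comp (e.symm : S' →ₙ* S), hf.comp e.symm.injective⟩

theorem ZS.of_mulEquiv {S S' : Type} [Semigroup S] [Semigroup S'] (e : S ≃* S') {z : S}
    (h : ZS z) : ZS (e z) := by
  refine ⟨?_, ?_, ?_, ?_⟩
  · intro x
    obtain ⟨y, rfl⟩ := e.surjective x
    rw [← map_mul, h.zl]
  · intro x
    obtain ⟨y, rfl⟩ := e.surjective x
    rw [← map_mul, h.zr]
  · obtain ⟨x, y, hxy⟩ := h.nt
    exact ⟨e x, e y, by rw [← map_mul]; exact fun h' => hxy (e.injective h')⟩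
  · intro x hx y
    obtain ⟨x, rfl⟩ := e.surjective x
    obtain ⟨y, rfl⟩ := e.surjective y
    obtain ⟨p, q, rfl⟩ := h.div x (fun h' => hx (by rw [h'])) y
    exact ⟨e p, e q, by rw [map_mul, map_mul]⟩

theorem c0_of_mulEquiv {S S' : Type} {hS : Semigroup S} {hS' : Semigroup S'}
    (e : S ≃* S') (h : C0 S hS) : C0 S' hS' := by
  obtain ⟨h1, h2⟩ := h
  obtain ⟨z, hz⟩ := isZeroSimple_iff.mp h2
  exact ⟨Finite.of_equiv S e.toEquiv, isZeroSimple_iff.mpr ⟨e z, hz.of_mulEquiv e⟩⟩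

/-- the two-element semilattice -/
instance boolSg : Semigroup Bool where
  mul a b := a && b
  mul_assoc a b c := Bool.and_assoc a b c

theorem bool_c0 : C0 Bool boolSg := by
  refine ⟨inferInstance, isZeroSimple_iff.mpr ⟨false, ?_, ?_, ?_, ?_⟩⟩
  · intro x; cases x <;> rfl
  · intro x; cases x <;> rfl
  · exact ⟨true, true, by decide⟩
  · intro x hx y
    cases x with
    | false => exact absurd rfl hx
    | true => exact ⟨y, y, by cases y <;> rfl⟩

theorem bool_sc0 : OpS C0 Bool boolSg :=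
  ⟨inferInstance, Bool, boolSg, bool_c0, MulHom.id Bool, fun _ _ h => h⟩

theorem bool_hsc0 : OpH (OpS C0) Bool boolSg :=
  ⟨Bool, boolSg, bool_sc0, MulHom.id Bool, fun x => ⟨x, rfl⟩⟩

end Pool.Agent.Helper87.Birk
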