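import Mathlib

/-!
# Closure properties of primitive recursive functions, set up for automation
-/

set_option autoImplicit false

namespace Pool.Agent.Helper87.Birk

attribute [fun_prop] Primrec

section

variable {α β γ : Type} [Primcodable α] [Primcodable β] [Primcodable γ]

@[fun_prop] theorem pr_id : Primrec (fun x : α => x) := Primrec.id

@[fun_prop] theorem pr_const (b : β) : Primrec (fun _ : α => b) := Primrec.const b

@[fun_prop] theorem pr_comp {f : β → γ} {g : α → β} (hf : Primrec f) (hg : Primrec g) :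
    Primrec (fun x => f (g x)) := hf.comp hg

@[fun_prop] theorem pr_fst {f : α → β × γ} (hf : Primrec f) : Primrec (fun x => (f x).1) :=
  Primrec.fst.comp hf

@[fun_prop] theorem pr_snd {f : α → β × γ} (hf : Primrec f) : Primrec (fun x => (f x).2) :=
  Primrec.snd.comp hf

@[fun_prop] theorem pr_mk {f : α → β} {g : α → γ} (hf : Primrec f) (hg : Primrec g) :
    Primrec (fun x => (f x, g x)) := hf.pair hg

@[fun_prop] theorem pr_add {f g : α → ℕ} (hf : Primrec f) (hg : Primrec g) :
    Primrec (fun x => f x + g x) := Primrec.nat_add.comp hf hg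

@[fun_prop] theorem pr_mul {f g : α → ℕ} (hf : Primrec f) (hg : Primrec g) :
    Primrec (fun x => f x * g x) := Primrec.nat_mul.comp hf hg

@[fun_prop] theorem pr_div {f g : α → ℕ} (hf : Primrec f) (hg : Primrec g) :
    Primrec (fun x => f x / g x) := Primrec.nat_div.comp hf hg

@[fun_prop] theorem pr_mod {f g : α → ℕ} (hf : Primrec f) (hg : Primrec g) :
    Primrec (fun x => f x % g x) := Primrec.nat_mod.comp hf hg

theorem nat_pow_primrec : Primrec₂ (fun a b : ℕ => a ^ b) := by
  have h : Primrec₂ (fun a b : ℕ => (Nat.rec 1 (fun _ r => r * a) b : ℕ)) := by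
    refine Primrec.nat_rec' (f := fun p : ℕ × ℕ => p.2) (g := fun _ => 1)
      (h := fun (p : ℕ × ℕ) (q : ℕ × ℕ) => q.2 * p.1) Primrec.snd (Primrec.const 1) ?_
    exact Primrec.nat_mul.comp (Primrec.snd.comp Primrec.snd) (Primrec.fst.comp Primrec.fst)
  refine h.of_eq ?_
  intro a b
  induction b with
  | zero => simp
  | succ b ih => rw [pow_succ, ← ih]

@[fun_prop] theorem pr_pow {f g : α → ℕ} (hf : Primrec f) (hg : Primrec g) :
    Primrec (fun x => f x ^ g x) := nat_pow_primrec.comp hf hg

example : Primrec (fun p : (ℕ × ℕ) × ℕ => p.1.1 + p.2 ^ (p.1.2 * 3)) := by fun_prop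

theorem pp_all {f : α → ℕ} {p : α → ℕ → Prop} (hf : Primrec f)
    (hp : PrimrecPred (fun q : α × ℕ => p q.1 q.2)) : PrimrecPred fun a => ∀ x < f a, p a x := by
  have h1 : PrimrecRel (fun (x : ℕ) (a : α) => p a x) :=
    hp.comp (Primrec.snd.pair Primrec.fst)
  have h2 := h1.forall_mem_list
  have h3 := h2.comp (Primrec.list_range.comp hf) Primrec.id
  exact h3.of_eq (by intro a; simp)

theorem pp_ex {f : α → ℕ} {p : α → ℕ → Prop} (hf : Primrec f)
    (hp : PrimrecPred (fun q : α × ℕ => p q.1 q.2)) : PrimrecPred fun a => ∃ x < f a, p a x := by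
  have h1 : PrimrecRel (fun (x : ℕ) (a : α) => p a x) :=
    hp.comp (Primrec.snd.pair Primrec.fst)
  have h2 := h1.exists_mem_list
  have h3 := h2.comp (Primrec.list_range.comp hf) Primrec.id
  exact h3.of_eq (by intro a; simp)

theorem pp_and {p q : α → Prop} (hp : PrimrecPred p) (hq : PrimrecPred q) :
    PrimrecPred fun a => p a ∧ q a := hp.and hq

theorem pp_or {p q : α → Prop} (hp : PrimrecPred p) (hq : PrimrecPred q) :
    PrimrecPred fun a => p a ∨ q a := hp.or hq

theorem pp_not {p : α → Prop} (hp : PrimrecPred p) : PrimrecPred fun a => ¬ p a := hp.not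

theorem pp_imp {p q : α → Prop} (hp : PrimrecPred p) (hq : PrimrecPred q) :
    PrimrecPred fun a => p a → q a := (hp.not.or hq).of_eq fun _ => imp_iff_not_or.symm

theorem pp_eq {f g : α → ℕ} (hf : Primrec f) (hg : Primrec g) :
    PrimrecPred fun a => f a = g a := Primrec.eq.comp hf hg

theorem pp_ne {f g : α → ℕ} (hf : Primrec f) (hg : Primrec g) :
    PrimrecPred fun a => f a ≠ g a := (Primrec.eq.comp hf hg).not

theorem pp_lt {f g : α → ℕ} (hf : Primrec f) (hg : Primrec g) :
    PrimrecPred fun a => f a < g a := Primrec.nat_lt.comp hf hg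

end

end Pool.Agent.Helper87.Birk
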