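import Pool.Agent.Helper87.Birk.Final

/-!
# Sanity checks for the definitions
-/

set_option autoImplicit false

namespace Pool.Agent.Helper87.Birk

/-- Every finite nonempty semigroup is given by a multiplication table, up to isomorphism. -/
theorem exists_table (S : Type) [Semigroup S] [Finite S] [Nonempty S] :
    ∃ (t : List (List ℕ)) (h : IsMulTable t),
      Nonempty (@MulEquiv S (Fin t.length) _ (tableSemigroup t h).toMul) := by
  classical
  obtain ⟨n, hn⟩ := Nat.exists_eq_succ_of_ne_zero (Nat.card_pos (α := S)).ne'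
  have e : S ≃ Fin (n + 1) := Finite.equivFinOfCardEq hn
  set t : List (List ℕ) := List.ofFn fun i : Fin (n + 1) =>
    List.ofFn fun j : Fin (n + 1) => (e (e.symm i * e.symm j) : ℕ) with ht
  have hl : t.length = n + 1 := by simp [ht]
  have hmul : ∀ x y : S, tableMul t (e x) (e y) = e (x * y) := by
    intro x y
    have h1 : (e x : ℕ) < n + 1 := (e x).2
    have h2 : (e y : ℕ) < n + 1 := (e y).2
    have h3 : (e x : ℕ) ≤ n := by omega
    have h4 : (e y : ℕ) ≤ n := by omega
    simp [tableMul, ht, -List.ofFn_succ, h3, h4]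
  have hsg : SgOn t.length (tableMul t) := by
    rw [hl]
    exact (sgOn_of_equiv (Nat.succ_pos n) e hmul).1
  have h : IsMulTable t := by
    rw [isMulTable_iff]
    refine ⟨?_, hsg⟩
    intro i hi
    rw [hl] at hi ⊢
    simp [ht, hi, -List.ofFn_succ]
  refine ⟨t, h, ⟨@MulEquiv.mk S (Fin t.length) _ (tableSemigroup t h).toMul
    (e.trans (finCongr hl.symm)) ?_⟩⟩
  intro x y
  exact Fin.ext (hmul x y).symm

/-- Membership in `OpH Φ` only depends on the isomorphism type. -/
example {Φ : SgClass} {S S' : Type} {hS : Semigroup S} {hS' : Semigroup S'}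
    (e : S ≃* S') (h : OpH Φ S hS) : OpH Φ S' hS' := opH_of_mulEquiv e h

example {Φ : SgClass} {S S' : Type} {hS : Semigroup S} {hS' : Semigroup S'}
    (e : S ≃* S') (h : OpS Φ S hS) : OpS Φ S' hS' := opS_of_mulEquiv e h

/-- `C₀` is inhabited. -/
example : C0 Bool boolSg := bool_c0

end Pool.Agent.Helper87.Birk
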