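import Pool.Agent.Helper87.Birk.Ops

/-!
# The separation criterion for `𝕊ℍℙ𝕊(C₀)`
-/

set_option autoImplicit false

namespace Pool.Agent.Helper87.Birk

/-- The separation criterion. -/
def Sep (S : Type) [Semigroup S] (b : ℕ) : Prop :=
  ∀ a₁ a₂ a₃ a₄ : S, a₁ * a₂ ≠ a₃ * a₄ → ∃ (W : Type) (hW : Semigroup W) (g : S → W),
    OpH (OpS C0) W hW ∧ Finite W ∧ Nat.card W < b ∧
    (∀ x a c, x * (g a * g c) = x * g (a * c) ∧ g a * g c * x = g (a * c) * x) ∧
    g a₁ * g a₂ ≠ g a₃ * g a₄

section Setup

variable {n : ℕ} {T T' : Fin (n + 1) → Type} [∀ i, Semigroup (T i)] [∀ i, Semigroup (T' i)]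
  {z : ∀ i, T' i} {j : ∀ i, T i →ₙ* T' i} {S : Type} [Semigroup S]

/-- truncation of the coordinates outside `M` -/
def trunc (o : ∀ i, T i) (M : Finset (Fin (n + 1))) (v : ∀ i, T i) : ∀ i, T i :=
  fun i => if i ∈ M then v i else o i

/-- `o i` is a zero for all coordinates outside `M` -/
def Valid (z : ∀ i, T' i) (j : ∀ i, T i →ₙ* T' i) (o : ∀ i, T i) (M : Finset (Fin (n + 1))) :
    Prop :=
  ∀ i, i ∉ M → j i (o i) = z i

/-- support -/
noncomputable def supp (z : ∀ i, T' i) (j : ∀ i, T i →ₙ* T' i) (v : ∀ i, T i) :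
    Finset (Fin (n + 1)) := by
  classical
  exact Finset.univ.filter fun i => j i (v i) ≠ z i

theorem mem_supp {v : ∀ i, T i} {i : Fin (n + 1)} : i ∈ supp z j v ↔ j i (v i) ≠ z i := by
  classical
  simp [supp]

/-- the generating pairs -/
inductive Rel (hat : S → ∀ i, T i) : (∀ i, T i) → (∀ i, T i) → Prop
  | left (x : ∀ i, T i) (a b : S) : Rel hat (x * (hat a * hat b)) (x * hat (a * b))
  | right (x : ∀ i, T i) (a b : S) : Rel hat (hat a * hat b * x) (hat (a * b) * x)

/-- the congruence generated by them -/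
def cgr (hat : S → ∀ i, T i) : Con (∀ i, T i) := conGen (Rel hat)

theorem cgr_left (hat : S → ∀ i, T i) (x : ∀ i, T i) (a b : S) :
    cgr hat (x * (hat a * hat b)) (x * hat (a * b)) :=
  ConGen.Rel.of _ _ (Rel.left x a b)

theorem cgr_right (hat : S → ∀ i, T i) (x : ∀ i, T i) (a b : S) :
    cgr hat (hat a * hat b * x) (hat (a * b) * x) :=
  ConGen.Rel.of _ _ (Rel.right x a b)

variable (hz : ∀ i, ZS (z i)) (hj : ∀ i, Function.Injective (j i))

include hz hj in
theorem trunc_mul {o : ∀ i, T i} {M : Finset (Fin (n + 1))} (hM : Valid z j o M)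
    (v w : ∀ i, T i) : trunc o M (v * w) = trunc o M v * trunc o M w := by
  funext i
  simp only [trunc, Pi.mul_apply]
  split_ifs with h
  · rfl
  · apply hj; rw [map_mul, hM i h, (hz i).zl]

include hz hj in
theorem trunc_mul_left {o : ∀ i, T i} {M : Finset (Fin (n + 1))} (hM : Valid z j o M)
    (v w : ∀ i, T i) : trunc o M (v * w) = trunc o M v * w := by
  funext i
  simp only [trunc, Pi.mul_apply]
  split_ifs with h
  · rfl
  · apply hj; rw [map_mul, hM i h, (hz i).zl]

include hz hj in
theorem trunc_mul_right {o : ∀ i, T i} {M : Finset (Fin (n + 1))} (hM : Valid z j o M)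
    (v w : ∀ i, T i) : trunc o M (v * w) = v * trunc o M w := by
  funext i
  simp only [trunc, Pi.mul_apply]
  split_ifs with h
  · rfl
  · apply hj; rw [map_mul, hM i h, (hz i).zr]

include hz hj in
theorem cgr_trunc (hat : S → ∀ i, T i) {o : ∀ i, T i} {M : Finset (Fin (n + 1))}
    (hM : Valid z j o M) {v w : ∀ i, T i} (h : cgr hat v w) :
    cgr hat (trunc o M v) (trunc o M w) := by
  have h1 : cgr hat ≤ Con.comap (trunc o M) (trunc_mul hz hj hM) (cgr hat) := by
    unfold cgr
    rw [Con.conGen_le]
    intro x y hxy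
    show cgr hat (trunc o M x) (trunc o M y)
    cases hxy with
    | left x a b =>
      rw [trunc_mul_left hz hj hM, trunc_mul_left hz hj hM]
      exact cgr_left hat _ a b
    | right x a b =>
      rw [trunc_mul_right hz hj hM, trunc_mul_right hz hj hM]
      exact cgr_right hat _ a b
  exact h1 h

include hj in
theorem trunc_supp {o : ∀ i, T i} (ho : ∀ i, (∃ t, j i t = z i) → j i (o i) = z i)
    (v : ∀ i, T i) : trunc o (supp z j v) v = v := by
  funext i
  simp only [trunc]
  split_ifs with h
  · rfl
  · rw [mem_supp, not_not] at h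
    apply hj
    rw [h, ho i ⟨_, h⟩]

theorem valid_supp {o : ∀ i, T i} (ho : ∀ i, (∃ t, j i t = z i) → j i (o i) = z i)
    (v : ∀ i, T i) : Valid z j o (supp z j v) := by
  intro i hi
  rw [mem_supp, not_not] at hi
  exact ho i ⟨_, hi⟩

omit [∀ i, Semigroup (T i)] in
theorem trunc_trunc {o : ∀ i, T i} (M M' : Finset (Fin (n + 1))) (v : ∀ i, T i) :
    trunc o M (trunc o M' v) = trunc o (M ∩ M') v := by
  funext i
  simp only [trunc, Finset.mem_inter]
  by_cases h1 : i ∈ M <;> by_cases h2 : i ∈ M' <;> simp [h1, h2]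

omit [∀ i, Semigroup (T i)] in
theorem trunc_univ {o : ∀ i, T i} (v : ∀ i, T i) : trunc o Finset.univ v = v := by
  funext i; simp [trunc]

include hz hj in
theorem exists_min (hat : S → ∀ i, T i) {o : ∀ i, T i}
    (ho : ∀ i, (∃ t, j i t = z i) → j i (o i) = z i) (u : ∀ i, T i) :
    ∃ M, Valid z j o M ∧ cgr hat u (trunc o M u) ∧
      (∀ M', Valid z j o M' → cgr hat u (trunc o M' u) → M ⊆ M') ∧
      (∀ v, cgr hat v u → M ⊆ supp z j v) := by
  classical
  obtain ⟨M, hM, hmin⟩ := Finset.exists_min_image
    (Finset.univ.filter fun M : Finset (Fin (n + 1)) => Valid z j o M ∧ cgr hat u (trunc o M u))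
    Finset.card ⟨Finset.univ, by
      rw [Finset.mem_filter]
      refine ⟨Finset.mem_univ _, ?_, ?_⟩
      · intro i hi; exact absurd (Finset.mem_univ i) hi
      · rw [trunc_univ]; exact (cgr hat).refl u⟩
  rw [Finset.mem_filter] at hM
  obtain ⟨_, hM1, hM2⟩ := hM
  have h3 : ∀ M', Valid z j o M' → cgr hat u (trunc o M' u) → M ⊆ M' := by
    intro M' hM'1 hM'2
    have h1 : M ∩ M' ∈ Finset.univ.filter
        fun M : Finset (Fin (n + 1)) => Valid z j o M ∧ cgr hat u (trunc o M u) := by
      rw [Finset.mem_filter]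
      refine ⟨Finset.mem_univ _, ?_, ?_⟩
      · intro i hi
        rw [Finset.mem_inter, not_and_or] at hi
        rcases hi with hi | hi
        · exact hM1 i hi
        · exact hM'1 i hi
      · rw [← trunc_trunc]
        exact (cgr hat).trans hM2 (cgr_trunc hz hj hat hM1 hM'2)
    have h2 := hmin _ h1
    have h4 : M ∩ M' = M := Finset.eq_of_subset_of_card_le Finset.inter_subset_left h2
    rw [← h4]
    exact Finset.inter_subset_right
  refine ⟨M, hM1, hM2, h3, ?_⟩
  intro v hv
  apply h3 _ (valid_supp ho v)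
  have h4 := cgr_trunc hz hj hat (valid_supp ho v) hv
  rw [trunc_supp hj ho] at h4
  exact (cgr hat).trans ((cgr hat).symm hv) h4

/-- The syntactic congruence of a set of words. -/
def syn {A : Type} [Semigroup A] (L : A → Prop) : Con A where
  r w w' := (L w ↔ L w') ∧ (∀ p, L (p * w) ↔ L (p * w')) ∧ (∀ q, L (w * q) ↔ L (w' * q)) ∧
    ∀ p q, L (p * w * q) ↔ L (p * w' * q)
  iseqv := ⟨fun w => ⟨Iff.rfl, fun _ => Iff.rfl, fun _ => Iff.rfl, fun _ _ => Iff.rfl⟩,
    fun h => ⟨h.1.symm, fun p => (h.2.1 p).symm, fun q => (h.2.2.1 q).symm,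
      fun p q => (h.2.2.2 p q).symm⟩,
    fun h h' => ⟨h.1.trans h'.1, fun p => (h.2.1 p).trans (h'.2.1 p),
      fun q => (h.2.2.1 q).trans (h'.2.2.1 q),
      fun p q => (h.2.2.2 p q).trans (h'.2.2.2 p q)⟩⟩
  mul' := by
    intro w x y v h h'
    refine ⟨(h.2.2.1 y).trans (h'.2.1 x), fun p => ?_, fun q => ?_, fun p q => ?_⟩
    · have h1 := h.2.2.2 p y
      have h2 := h'.2.1 (p * x)
      rw [← mul_assoc, ← mul_assoc]
      exact h1.trans h2
    · have h1 := h.2.2.1 (y * q)
      have h2 := h'.2.2.2 x q
      rw [mul_assoc w, h1, ← mul_assoc]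
      exact h2
    · have h1 := h.2.2.2 p (y * q)
      have h2 := h'.2.2.2 (p * x) q
      have e1 : p * (w * y) * q = p * w * (y * q) := by simp only [mul_assoc]
      have e2 : p * (x * v) * q = p * x * v * q := by simp only [mul_assoc]
      have e3 : p * x * (y * q) = p * x * y * q := by simp only [mul_assoc]
      rw [e1, e2, h1, e3]
      exact h2

include hz hj in
/-- The main construction. -/
theorem exists_W [∀ i, Finite (T' i)] [Finite S] (hat : S → ∀ i, T i) {o : ∀ i, T i}
    (ho : ∀ i, (∃ t, j i t = z i) → j i (o i) = z i) (u : ∀ i, T i)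
    (M : Finset (Fin (n + 1))) (hM : Valid z j o M) (hMs : ∀ v, cgr hat v u → M ⊆ supp z j v)
    [Nonempty S] :
    ∃ (W : Type) (hW : Semigroup W) (g : S → W),
    OpH (OpS C0) W hW ∧ Finite W ∧ Nat.card W ≤ Nat.card S + Nat.card S * Nat.card S ∧
    (∀ x a c, x * (g a * g c) = x * g (a * c) ∧ g a * g c * x = g (a * c) * x) ∧
    ∀ a₁ a₂ a₃ a₄, g a₁ * g a₂ = g a₃ * g a₄ →
      cgr hat (trunc o M (hat a₁ * hat a₂)) u → cgr hat (trunc o M (hat a₃ * hat a₄)) u := by
  classical
  have hTfin : ∀ i, Finite (T i) := fun i => Finite.of_injective _ (hj i)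
  set ev : FreeSemigroup S →ₙ* (∀ i, T i) := FreeSemigroup.lift hat with hev
  have hevof : ∀ s, ev (FreeSemigroup.of s) = hat s := by
    intro s; rw [hev]; exact FreeSemigroup.lift_of _ s
  set L : FreeSemigroup S → Prop := fun w => cgr hat (trunc o M (ev w)) u with hL
  set c := syn L with hc
  set g : S → c.Quotient := fun s => (FreeSemigroup.of s : FreeSemigroup S) with hg
  have hcongr : ∀ v w, cgr hat v w → (cgr hat v u ↔ cgr hat w u) := fun v w h =>
    ⟨fun h' => (cgr hat).trans ((cgr hat).symm h) h', fun h' => (cgr hat).trans h h'⟩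
  -- Lemma R
  have lemR : ∀ w w', cgr hat (trunc o M (ev w)) (trunc o M (ev w')) → c w w' := by
    intro w w' h
    refine ⟨hcongr _ _ h, fun p => ?_, fun q => ?_, fun p q => ?_⟩
    · apply hcongr
      rw [map_mul, map_mul, trunc_mul hz hj hM, trunc_mul hz hj hM]
      exact (cgr hat).mul ((cgr hat).refl _) h
    · apply hcongr
      rw [map_mul, map_mul, trunc_mul hz hj hM, trunc_mul hz hj hM]
      exact (cgr hat).mul h ((cgr hat).refl _)
    · apply hcongr
      rw [map_mul, map_mul, map_mul, map_mul, trunc_mul hz hj hM, trunc_mul hz hj hM,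
        trunc_mul hz hj hM, trunc_mul hz hj hM]
      exact (cgr hat).mul ((cgr hat).mul ((cgr hat).refl _) h) ((cgr hat).refl _)
  have lemR' : ∀ w w', cgr hat (ev w) (ev w') → c w w' := by
    intro w w' h
    exact lemR w w' (cgr_trunc hz hj hat hM h)
  set allowed : FreeSemigroup S → Prop := fun w => ∀ i ∈ M, j i (ev w i) ≠ z i with hallowed
  have hLall : ∀ w, L w → allowed w := by
    intro w hw i hi
    have h1 := hMs _ hw hi
    rw [mem_supp] at h1
    simpa only [trunc, if_pos hi] using h1
  have hnall : ∀ w w', ¬ allowed w → ¬ allowed w' → c w w' := by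
    have hl : ∀ w, ¬ allowed w → ¬ L w := fun w h h' => h (hLall w h')
    have hmr : ∀ w q, ¬ allowed w → ¬ allowed (w * q) := by
      intro w q h h'
      apply h
      intro i hi h0
      apply h' i hi
      rw [map_mul, Pi.mul_apply, map_mul, h0, (hz i).zl]
    have hml : ∀ p w, ¬ allowed w → ¬ allowed (p * w) := by
      intro p w h h'
      apply h
      intro i hi h0
      apply h' i hi
      rw [map_mul, Pi.mul_apply, map_mul, h0, (hz i).zr]
    intro w w' h h'
    refine ⟨iff_of_false (hl _ h) (hl _ h'), fun p => ?_, fun q => ?_, fun p q => ?_⟩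
    · exact iff_of_false (hl _ (hml _ _ h)) (hl _ (hml _ _ h'))
    · exact iff_of_false (hl _ (hmr _ _ h)) (hl _ (hmr _ _ h'))
    · exact iff_of_false (hl _ (hmr _ _ (hml _ _ h))) (hl _ (hmr _ _ (hml _ _ h')))
  have hmk : ∀ x : c.Quotient, ∃ w : FreeSemigroup S, (w : c.Quotient) = x := by
    intro x
    induction x using Con.induction_on with
    | H w => exact ⟨w, rfl⟩
  -- the relations
  have hrel1 : ∀ (x : c.Quotient) a b, x * (g a * g b) = x * g (a * b) := by
    intro x a b
    obtain ⟨w, rfl⟩ := hmk x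
    show ((w * (FreeSemigroup.of a * FreeSemigroup.of b) : FreeSemigroup S) : c.Quotient) =
      ((w * FreeSemigroup.of (a * b) : FreeSemigroup S) : c.Quotient)
    rw [Con.eq]
    apply lemR'
    rw [map_mul ev, map_mul ev, map_mul ev, hevof, hevof, hevof]
    exact cgr_left hat _ a b
  have hrel2 : ∀ (x : c.Quotient) a b, g a * g b * x = g (a * b) * x := by
    intro x a b
    obtain ⟨w, rfl⟩ := hmk x
    show ((FreeSemigroup.of a * FreeSemigroup.of b * w : FreeSemigroup S) : c.Quotient) =
      ((FreeSemigroup.of (a * b) * w : FreeSemigroup S) : c.Quotient)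
    rw [Con.eq]
    apply lemR'
    rw [map_mul ev, map_mul ev, map_mul ev, hevof, hevof, hevof]
    exact cgr_right hat _ a b
  -- generation
  have hgen : Subsemigroup.closure (Set.range g) = ⊤ := by
    rw [eq_top_iff]
    intro x _
    obtain ⟨w, rfl⟩ := hmk x
    induction w using FreeSemigroup.recOnMul with
    | ih1 x => exact Subsemigroup.subset_closure ⟨x, rfl⟩
    | ih2 x y _ hy =>
      have h1 : g x ∈ Subsemigroup.closure (Set.range g) := Subsemigroup.subset_closure ⟨x, rfl⟩
      exact Subsemigroup.mul_mem _ h1 (hy trivial)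
  -- cardinality
  have hshort : ∀ w : FreeSemigroup S, (∃ s, (w : c.Quotient) = g s) ∨
      ∃ s t, (w : c.Quotient) = g s * g t := by
    intro w
    induction w using FreeSemigroup.recOnMul with
    | ih1 x => exact Or.inl ⟨x, rfl⟩
    | ih2 x y _ hy =>
      right
      have e1 : ((FreeSemigroup.of x * y : FreeSemigroup S) : c.Quotient) =
        g x * (y : c.Quotient) := rfl
      rcases hy with ⟨s, hs⟩ | ⟨s, t, hs⟩
      · exact ⟨x, s, by rw [e1, hs]⟩
      · exact ⟨x, s * t, by rw [e1, hs, hrel1]⟩
  have hsurj : Function.Surjective (fun s : S ⊕ S × S =>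
      (Sum.elim g (fun p => g p.1 * g p.2) s : c.Quotient)) := by
    intro x
    obtain ⟨w, rfl⟩ := hmk x
    rcases hshort w with ⟨s, hs⟩ | ⟨s, t, hs⟩
    · exact ⟨Sum.inl s, hs.symm⟩
    · exact ⟨Sum.inr (s, t), hs.symm⟩
  have hWfin : Finite c.Quotient := Finite.of_surjective _ hsurj
  have hWcard : Nat.card c.Quotient ≤ Nat.card S + Nat.card S * Nat.card S := by
    have := Nat.card_le_card_of_surjective _ hsurj
    rwa [Nat.card_sum, Nat.card_prod] at this
  -- the certificate
  set E : S → S → Prop := fun a b => allowed (FreeSemigroup.of a * FreeSemigroup.of b) with hE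
  set R : S → S → Prop := fun a b => allowed (FreeSemigroup.of a * FreeSemigroup.of b) ∨
    ∃ d, allowed (FreeSemigroup.of a * d * FreeSemigroup.of b) with hR
  set P : S → c.Quotient → Prop := fun a x => ∃ w : FreeSemigroup S,
    (w = FreeSemigroup.of a ∨ ∃ w', w = FreeSemigroup.of a * w') ∧ (w : c.Quotient) = x ∧
      (allowed (FreeSemigroup.of a) → allowed w) with hP
  have hcat : ∀ p q r : FreeSemigroup S, allowed (p * q) → allowed (q * r) →
      allowed (p * q * r) := by
    intro p q r h1 h2 i hi
    have h3 := h1 i hi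
    have h4 := h2 i hi
    rw [map_mul, Pi.mul_apply, map_mul] at h3 h4
    rw [map_mul, map_mul, Pi.mul_apply, Pi.mul_apply, map_mul, map_mul]
    exact (hz i).cat h3 h4
  have hallr : ∀ p q : FreeSemigroup S, allowed (p * q) → allowed q := by
    intro p q h i hi h0
    apply h i hi
    rw [map_mul, Pi.mul_apply, map_mul, h0, (hz i).zr]
  have hcert : Cert g E R P := by
    refine ⟨?_, ?_, ?_, ?_, ?_, ?_⟩
    · intro x y h; exact Or.inl h
    · intro x y w hxy hyw
      right
      rcases hxy with hxy | ⟨d, hxy⟩ <;> rcases hyw with hyw | ⟨d', hyw⟩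
      · exact ⟨_, hcat _ _ _ hxy hyw⟩
      · refine ⟨FreeSemigroup.of y * d', ?_⟩
        rw [mul_assoc] at hyw
        have := hcat _ _ _ hxy hyw
        simpa only [mul_assoc] using this
      · refine ⟨d * FreeSemigroup.of y, ?_⟩
        have := hcat _ _ _ hxy hyw
        simpa only [mul_assoc] using this
      · refine ⟨d * FreeSemigroup.of y * d', ?_⟩
        rw [mul_assoc] at hyw
        have := hcat _ _ _ hxy hyw
        simpa only [mul_assoc] using this
    · intro x; exact ⟨_, Or.inl rfl, rfl, fun h => h⟩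
    · rintro x y _ hxy ⟨w, hw, rfl, hw2⟩
      have hy : allowed (FreeSemigroup.of y) := hallr _ _ hxy
      refine ⟨FreeSemigroup.of x * w, Or.inr ⟨w, rfl⟩, rfl, fun _ => ?_⟩
      rcases hw with rfl | ⟨w', rfl⟩
      · exact hxy
      · have := hcat _ _ _ hxy (hw2 hy)
        simpa only [mul_assoc] using this
    · rintro x y _ _ hxy hyx ⟨w, hw, rfl, hw2⟩ ⟨w', hw', rfl, hw2'⟩ heq
      have hy : allowed (FreeSemigroup.of y) := hallr _ _ hxy
      obtain ⟨e, he1, ⟨d, hd⟩, s, hs⟩ : ∃ e : FreeSemigroup S,
          allowed (e * FreeSemigroup.of y) ∧ (∃ d, e = d * FreeSemigroup.of x) ∧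
          ∃ s, e = FreeSemigroup.of y * s := by
        rcases hyx with hyx | ⟨d, hyx⟩
        · exact ⟨FreeSemigroup.of y * FreeSemigroup.of x, hcat _ _ _ hyx hxy, ⟨_, rfl⟩, _, rfl⟩
        · exact ⟨FreeSemigroup.of y * d * FreeSemigroup.of x, hcat _ _ _ hyx hxy, ⟨_, rfl⟩,
            d * FreeSemigroup.of x, by rw [mul_assoc]⟩
      have key : ∀ v : FreeSemigroup S,
          (v = FreeSemigroup.of y ∨ ∃ v', v = FreeSemigroup.of y * v') → allowed v → ∀ i ∈ M,
          j i (ev e i) * j i (ev v i) ≠ z i ∧
            ∃ p, j i (ev e i) * j i (ev v i) = j i (ev v i) * p := by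
        intro v hv hva i hi
        have hne : allowed (e * v) := by
          rcases hv with rfl | ⟨v', rfl⟩
          · exact he1
          · have := hcat _ _ _ he1 hva
            simpa only [mul_assoc] using this
        have hne' := hne i hi
        rw [map_mul, Pi.mul_apply, map_mul] at hne'
        refine ⟨hne', ?_⟩
        rcases hv with rfl | ⟨v', rfl⟩
        · refine ⟨j i (ev s i) * j i (ev (FreeSemigroup.of y) i), ?_⟩
          rw [hs, map_mul, Pi.mul_apply, map_mul, mul_assoc]
        · have hva' := hva i hi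
          rw [map_mul, Pi.mul_apply, map_mul] at hva'
          obtain ⟨t, ht⟩ := (hz i).stab_r hva'
          refine ⟨t * (j i (ev s i) * j i (ev (FreeSemigroup.of y * v') i)), ?_⟩
          rw [← mul_assoc _ t]
          conv_rhs => rw [map_mul ev (FreeSemigroup.of y) v', Pi.mul_apply, map_mul, ht]
          rw [hs, map_mul ev (FreeSemigroup.of y) s, Pi.mul_apply, map_mul (j i), mul_assoc]
          rw [map_mul ev (FreeSemigroup.of y) v', Pi.mul_apply, map_mul (j i)]
      have k1 := key w hw (hw2 hy)
      have k2 := key w' hw' (hw2' hy)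
      obtain ⟨a, b, hab, hfab⟩ := Finite.exists_ne_map_eq_of_infinite
        (fun n : ℕ => ((fun y => ev e * y)^[n + 1] (ev w), (fun y => ev e * y)^[n + 1] (ev w')))
      wlog hlt : a < b generalizing a b
      · exact this b a hab.symm hfab.symm (lt_of_le_of_ne (not_lt.mp hlt) hab.symm)
      obtain ⟨N, rfl⟩ := Nat.exists_eq_add_of_lt hlt
      simp only [Prod.mk.injEq] at hfab
      have hcoord : ∀ (i : Fin (n + 1)) (k : ℕ) (v : ∀ i, T i),
          j i ((fun y => ev e * y)^[k] v i) = (fun y => j i (ev e i) * y)^[k] (j i (v i)) := by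
        intro i k
        induction k with
        | zero => intro v; rfl
        | succ k ih =>
          intro v
          rw [Function.iterate_succ, Function.comp, ih, Function.iterate_succ, Function.comp,
            Pi.mul_apply, map_mul]
      have hper : ∀ v : FreeSemigroup S, (∀ i ∈ M, j i (ev e i) * j i (ev v i) ≠ z i ∧
            ∃ p, j i (ev e i) * j i (ev v i) = j i (ev v i) * p) →
          (fun y => ev e * y)^[a + 1] (ev v) = (fun y => ev e * y)^[a + N + 1 + 1] (ev v) →
          trunc o M ((fun y => ev e * y)^[N + 1] (ev v)) = trunc o M (ev v) := by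
        intro v hv hv'
        funext i
        simp only [trunc]
        split_ifs with hi
        · obtain ⟨h1, p, h2⟩ := hv i hi
          apply hj
          rw [hcoord]
          apply (hz i).cancel_iter h1 h2 (k := a)
          have e0 : a + N + 1 + 1 = a + 1 + (N + 1) := by omega
          rw [← hcoord, ← hcoord, hv', e0]
        · rfl
      have e1 := hper w k1 hfab.1
      have e2 := hper w' k2 hfab.2
      have hpull : ∀ (k : ℕ) (v : FreeSemigroup S),
          ev ((fun y => e * y)^[k] v) = (fun y => ev e * y)^[k] (ev v) := by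
        intro k
        induction k with
        | zero => intro v; rfl
        | succ k ih => intro v; rw [Function.iterate_succ, Function.comp, ih, map_mul]; rfl
      have hpush : ∀ (k : ℕ) (v : FreeSemigroup S),
          (((fun y => e * y)^[k] v : FreeSemigroup S) : c.Quotient) =
            (fun y => (e : c.Quotient) * y)^[k] (v : c.Quotient) := by
        intro k
        induction k with
        | zero => intro v; rfl
        | succ k ih => intro v; rw [Function.iterate_succ, Function.comp, ih]; rfl
      have f1 : (fun y => (e : c.Quotient) * y)^[N + 1] (w : c.Quotient) = w := by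
        rw [← hpush, Con.eq]
        apply lemR
        rw [hpull, e1]
        exact (cgr hat).refl _
      have f2 : (fun y => (e : c.Quotient) * y)^[N + 1] (w' : c.Quotient) = w' := by
        rw [← hpush, Con.eq]
        apply lemR
        rw [hpull, e2]
        exact (cgr hat).refl _
      have f3 : (e : c.Quotient) * (w : c.Quotient) = (e : c.Quotient) * (w' : c.Quotient) := by
        have e4 : (e : c.Quotient) = (d : c.Quotient) * g x := by rw [hd]; rfl
        rw [e4, mul_assoc, mul_assoc, heq]
      rw [← f1, ← f2, Function.iterate_succ, Function.comp, Function.comp, f3]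
    · by_cases hall : ∀ x y, E x y
      · exact Or.inl hall
      · right
        push Not at hall
        obtain ⟨x0, y0, h0⟩ := hall
        refine ⟨((FreeSemigroup.of x0 * FreeSemigroup.of y0 : FreeSemigroup S) : c.Quotient),
          ?_, ?_⟩
        · intro x
          obtain ⟨w, rfl⟩ := hmk x
          constructor
          · show ((FreeSemigroup.of x0 * FreeSemigroup.of y0 * w : FreeSemigroup S) :
              c.Quotient) = _
            rw [Con.eq]
            apply hnall _ _ _ h0
            intro h'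
            apply h0
            intro i hi h1
            apply h' i hi
            rw [map_mul, Pi.mul_apply, map_mul, h1, (hz i).zl]
          · show ((w * (FreeSemigroup.of x0 * FreeSemigroup.of y0) : FreeSemigroup S) :
              c.Quotient) = _
            rw [Con.eq]
            apply hnall _ _ _ h0
            intro h'
            exact h0 (hallr _ _ h')
        · intro x y hxy
          show ((FreeSemigroup.of x * FreeSemigroup.of y : FreeSemigroup S) : c.Quotient) = _
          rw [Con.eq]
          exact hnall _ _ hxy h0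
  have hne : Nonempty c.Quotient := ⟨g (Classical.arbitrary S)⟩
  refine ⟨c.Quotient, inferInstance, g, hcert.opHS hgen, hWfin, hWcard,
    fun x a b => ⟨hrel1 x a b, hrel2 x a b⟩, ?_⟩
  intro a₁ a₂ a₃ a₄ h12 h1
  have h2 : ((FreeSemigroup.of a₁ * FreeSemigroup.of a₂ : FreeSemigroup S) : c.Quotient) =
    ((FreeSemigroup.of a₃ * FreeSemigroup.of a₄ : FreeSemigroup S) : c.Quotient) := h12
  rw [Con.eq] at h2
  have h3 : L (FreeSemigroup.of a₁ * FreeSemigroup.of a₂) ↔
    L (FreeSemigroup.of a₃ * FreeSemigroup.of a₄) := h2.1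
  simp only [hL, map_mul, hevof] at h3
  exact h3.mp h1

end Setup

/-- Members of `𝕊ℍℙ𝕊(C₀)` satisfy the separation criterion. -/
theorem sep_of_SHPS {S : Type} [hS : Semigroup S] [Finite S]
    (h : OpS (OpH (OpP (OpS C0))) S hS) :
    Sep S (Nat.card S + Nat.card S * Nat.card S + 1) := by
  classical
  obtain ⟨hSne, R, hR, ⟨V, hV, ⟨n, T, hT, hΦ, ⟨e⟩⟩, f, hf⟩, k, hk⟩ := h
  have hTne : ∀ i, Nonempty (T i) := fun i => (hΦ i).1
  choose _ T' hT' hC j hj using hΦ
  have hfin : ∀ i, Finite (T' i) := fun i => (hC i).1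
  have hzs : ∀ i, ∃ z : T' i, ZS z := fun i => isZeroSimple_iff.mp (hC i).2
  choose z hz using hzs
  set φ0 : (∀ i, T i) →ₙ* R := f.comp (e.symm : (∀ i, T i) →ₙ* V) with hφ0
  have hφ0s : Function.Surjective φ0 := hf.comp e.symm.surjective
  choose pre hpre using hφ0s
  set hat : S → ∀ i, T i := fun s => pre (k s) with hhat
  have hφhat : ∀ s, φ0 (hat s) = k s := fun s => hpre _
  have ho : ∀ i, ∃ o : T i, (∃ t, j i t = z i) → j i o = z i := by
    intro i
    by_cases h : ∃ t, j i t = z i
    · obtain ⟨t, ht⟩ := h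
      exact ⟨t, fun _ => ht⟩
    · exact ⟨(hTne i).some, fun h' => absurd h' h⟩
  choose o ho using ho
  have hker : cgr hat ≤ Con.ker φ0 := by
    unfold cgr
    rw [Con.conGen_le]
    intro x y hxy
    show φ0 x = φ0 y
    cases hxy with
    | left x a b => simp only [map_mul, hφhat]
    | right x a b => simp only [map_mul, hφhat]
  intro a₁ a₂ a₃ a₄ hne
  set u := hat a₁ * hat a₂ with hu
  set u' := hat a₃ * hat a₄ with hu'
  obtain ⟨M, hM, hMu, hMmin, hMs⟩ := exists_min hz hj hat ho u
  obtain ⟨M', hM', hMu', hMmin', hMs'⟩ := exists_min hz hj hat ho u'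
  obtain ⟨W, hW, g, hW1, hW2, hW3, hW4, hW5⟩ := exists_W hz hj hat ho u M hM hMs
  obtain ⟨W', hW', g', hW1', hW2', hW3', hW4', hW5'⟩ := exists_W hz hj hat ho u' M' hM' hMs'
  by_cases h1 : g a₁ * g a₂ = g a₃ * g a₄
  · by_cases h2 : g' a₁ * g' a₂ = g' a₃ * g' a₄
    · exfalso
      have h3 : cgr hat (trunc o M u') u := hW5 _ _ _ _ h1 ((cgr hat).symm hMu)
      have h4 : cgr hat (trunc o M' u) u' := hW5' _ _ _ _ h2.symm ((cgr hat).symm hMu')
      have h5 : M ⊆ M' := by
        have h6 := cgr_trunc hz hj hat hM h4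
        rw [trunc_trunc] at h6
        have h7 : M ⊆ M ∩ M' := by
          apply hMmin
          · intro i hi
            rw [Finset.mem_inter, not_and_or] at hi
            rcases hi with hi | hi
            · exact hM i hi
            · exact hM' i hi
          · exact (cgr hat).symm ((cgr hat).trans h6 h3)
        exact h7.trans Finset.inter_subset_right
      have h6 : M' ⊆ M := by
        have h6 := cgr_trunc hz hj hat hM' h3
        rw [trunc_trunc] at h6
        have h7 : M' ⊆ M' ∩ M := by
          apply hMmin'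
          · intro i hi
            rw [Finset.mem_inter, not_and_or] at hi
            rcases hi with hi | hi
            · exact hM' i hi
            · exact hM i hi
          · exact (cgr hat).symm ((cgr hat).trans h6 h4)
        exact h7.trans Finset.inter_subset_right
      have h7 : M = M' := Finset.Subset.antisymm h5 h6
      subst h7
      have h8 : cgr hat u u' := (cgr hat).symm ((cgr hat).trans hMu' h3)
      have h9 : φ0 u = φ0 u' := hker h8
      rw [hu, hu', map_mul, map_mul, hφhat, hφhat, hφhat, hφhat, ← map_mul, ← map_mul] at h9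
      exact hne (hk h9)
    · exact ⟨W', hW', g', hW1', hW2', Nat.lt_succ_of_le hW3', hW4', h2⟩
  · exact ⟨W, hW, g, hW1, hW2, Nat.lt_succ_of_le hW3, hW4, h1⟩

end Pool.Agent.Helper87.Birk
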