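import Pool.Agent.Helper87.Birk.Defs

/-!
# Basic facts on finite `0`-simple semigroups
-/

set_option autoImplicit false

namespace Pool.Agent.Helper87.Birk

/-- Element form of `0`-simplicity with a specified zero. -/
structure ZS {T : Type} [Semigroup T] (z : T) : Prop where
  zl : ∀ x, z * x = z
  zr : ∀ x, x * z = z
  nt : ∃ x y : T, x * y ≠ z
  div : ∀ x, x ≠ z → ∀ y, ∃ p q, p * x * q = y

theorem isZeroSimple_iff {T : Type} [Semigroup T] : IsZeroSimple T ↔ ∃ z : T, ZS z := by
  constructor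
  · rintro ⟨z, hz, hnt, hI⟩
    refine ⟨z, fun x => (hz x).1, fun x => (hz x).2, hnt, ?_⟩
    intro x hx y
    have hJ := hI {w | ∃ p q, p * x * q = w} ⟨x * x * x, x, x, rfl⟩ (by
      rintro w ⟨p, q, rfl⟩ y
      exact ⟨⟨p, q * y, by simp only [mul_assoc]⟩, ⟨y * p, q, by simp only [mul_assoc]⟩⟩)
    rcases hJ with hJ | hJ
    · exfalso
      have hJ' : ∀ p q, p * x * q = z := by
        intro p q
        have : p * x * q ∈ ({w | ∃ p q, p * x * q = w} : Set T) := ⟨p, q, rfl⟩
        rw [hJ] at this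
        exact this
      have hA := hI {w | ∀ p q, p * w * q = z} ⟨x, hJ'⟩ (by
        intro w hw y
        refine ⟨fun p q => ?_, fun p q => ?_⟩
        · have := hw p (y * q)
          rw [← this]; simp only [mul_assoc]
        · have := hw (p * y) q
          rw [← this]; simp only [mul_assoc])
      rcases hA with hA | hA
      · have : x ∈ ({w | ∀ p q, p * w * q = z} : Set T) := hJ'
        rw [hA] at this
        exact hx this
      · obtain ⟨a, b, hab⟩ := hnt
        have hS := hI {w | ∃ p q, p * q = w} ⟨a * b, a, b, rfl⟩ (by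
          rintro w ⟨p, q, rfl⟩ y
          exact ⟨⟨p * q, y, rfl⟩, ⟨y, p * q, rfl⟩⟩)
        rcases hS with hS | hS
        · have : a * b ∈ ({w | ∃ p q, p * q = w} : Set T) := ⟨a, b, rfl⟩
          rw [hS] at this
          exact hab this
        · have : a ∈ ({w | ∃ p q, p * q = w} : Set T) := by rw [hS]; trivial
          obtain ⟨p, q, rfl⟩ := this
          have hq : q ∈ ({w | ∀ p q, p * w * q = z} : Set T) := by rw [hA]; trivial
          exact hab (hq p b)
    · have : y ∈ ({w | ∃ p q, p * x * q = w} : Set T) := by rw [hJ]; trivial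
      exact this
  · rintro ⟨z, hz⟩
    refine ⟨z, fun x => ⟨hz.zl x, hz.zr x⟩, hz.nt, ?_⟩
    intro I hne hI
    by_cases h : ∃ x ∈ I, x ≠ z
    · right
      obtain ⟨x, hxI, hx⟩ := h
      ext y
      simp only [Set.mem_univ, iff_true]
      obtain ⟨p, q, rfl⟩ := hz.div x hx y
      exact (hI _ ((hI x hxI p).2) q).1
    · left
      push Not at h
      obtain ⟨x, hx⟩ := hne
      ext y
      constructor
      · intro hy; exact h y hy
      · rintro rfl; rw [← h x hx]; exact hx

namespace ZS

variable {T : Type} [Semigroup T] {z : T}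

theorem stab_r (h : ZS z) [Finite T] {x a : T} (hxa : x * a ≠ z) : ∃ t, x * a * t = x := by
  obtain ⟨p, q, hpq⟩ := h.div _ hxa x
  set C : Set T := {x} ∪ Set.range (fun t => x * t) with hC
  set D : Set T := {x * a} ∪ Set.range (fun t => x * a * t) with hD
  have hDC : D ⊆ C := by
    rintro w (hw | ⟨t, rfl⟩)
    · exact Or.inr ⟨a, hw.symm⟩
    · exact Or.inr ⟨a * t, by simp only [mul_assoc]⟩
  have hCD : C ⊆ (fun y => p * y) '' D := by
    rintro w (hw | ⟨t, rfl⟩)
    · refine ⟨x * a * q, Or.inr ⟨q, rfl⟩, ?_⟩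
      rw [Set.mem_singleton_iff] at hw
      rw [hw]
      simpa only [mul_assoc] using hpq
    · refine ⟨x * a * (q * t), Or.inr ⟨q * t, rfl⟩, ?_⟩
      have : p * (x * a * (q * t)) = (p * (x * a) * q) * t := by simp only [mul_assoc]
      simp only [this, hpq]
  have h1 : C.ncard ≤ D.ncard :=
    (Set.ncard_le_ncard hCD (Set.toFinite _)).trans (Set.ncard_image_le (Set.toFinite _))
  have h2 : D = C := Set.eq_of_subset_of_ncard_le hDC h1 (Set.toFinite _)
  have h3 : x ∈ D := by rw [h2]; exact Or.inl rfl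
  rcases h3 with h3 | ⟨t, ht⟩
  · have h4 : x = x * a := h3
    exact ⟨a, by rw [← h4, ← h4]⟩
  · exact ⟨t, ht⟩

theorem stab_l (h : ZS z) [Finite T] {x a : T} (hxa : a * x ≠ z) : ∃ t, t * (a * x) = x := by
  obtain ⟨p, q, hpq⟩ := h.div _ hxa x
  set C : Set T := {x} ∪ Set.range (fun t => t * x) with hC
  set D : Set T := {a * x} ∪ Set.range (fun t => t * (a * x)) with hD
  have hDC : D ⊆ C := by
    rintro w (hw | ⟨t, rfl⟩)
    · exact Or.inr ⟨a, hw.symm⟩
    · exact Or.inr ⟨t * a, by simp only [mul_assoc]⟩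
  have hCD : C ⊆ (fun y => y * q) '' D := by
    rintro w (hw | ⟨t, rfl⟩)
    · refine ⟨p * (a * x), Or.inr ⟨p, rfl⟩, ?_⟩
      rw [Set.mem_singleton_iff] at hw
      rw [hw]
      simpa only [mul_assoc] using hpq
    · refine ⟨(t * p) * (a * x), Or.inr ⟨t * p, rfl⟩, ?_⟩
      have : (t * p) * (a * x) * q = t * (p * (a * x) * q) := by simp only [mul_assoc]
      simp only [this, hpq]
  have h1 : C.ncard ≤ D.ncard :=
    (Set.ncard_le_ncard hCD (Set.toFinite _)).trans (Set.ncard_image_le (Set.toFinite _))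
  have h2 : D = C := Set.eq_of_subset_of_ncard_le hDC h1 (Set.toFinite _)
  have h3 : x ∈ D := by rw [h2]; exact Or.inl rfl
  rcases h3 with h3 | ⟨t, ht⟩
  · have h4 : x = a * x := h3
    exact ⟨a, by rw [← h4, ← h4]⟩
  · exact ⟨t, ht⟩

theorem cat (h : ZS z) [Finite T] {u v w : T} (huv : u * v ≠ z) (hvw : v * w ≠ z) :
    u * v * w ≠ z := by
  intro h0
  obtain ⟨t, ht⟩ := h.stab_r hvw
  apply huv
  calc u * v = u * (v * w * t) := by rw [ht]
    _ = u * v * w * t := by simp only [mul_assoc]
    _ = z := by rw [h0, h.zl]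

theorem iter_mul (c x y : T) (n : ℕ) :
    (fun y => c * y)^[n] (x * y) = (fun y => c * y)^[n] x * y := by
  induction n with
  | zero => rfl
  | succ n ih => simp only [Function.iterate_succ', Function.comp, ih, mul_assoc]

theorem iter_eq_mul {c x p : T} (hp : c * x = x * p) (n : ℕ) :
    ∃ P, (fun y => c * y)^[n + 1] x = x * P := by
  induction n with
  | zero => exact ⟨p, hp⟩
  | succ n ih =>
    obtain ⟨P, hP⟩ := ih
    refine ⟨P * p, ?_⟩
    rw [Function.iterate_succ, Function.comp, hp, iter_mul, hP, mul_assoc]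

theorem iter_eq_mul' (c x : T) (n : ℕ) :
    ∃ P, (fun y => c * y)^[n + 1] x = P * x := by
  induction n with
  | zero => exact ⟨c, rfl⟩
  | succ n ih =>
    obtain ⟨P, hP⟩ := ih
    refine ⟨c * P, ?_⟩
    rw [Function.iterate_succ', Function.comp, hP, mul_assoc]

theorem iter_ne (h : ZS z) [Finite T] {c x p : T} (hcx : c * x ≠ z) (hp : c * x = x * p) (n : ℕ) :
    (fun y => c * y)^[n + 1] x ≠ z := by
  induction n with
  | zero => exact hcx
  | succ n ih =>
    obtain ⟨P, hP⟩ := iter_eq_mul hp n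
    rw [Function.iterate_succ', Function.comp, hP, ← mul_assoc]
    rw [hP] at ih
    exact h.cat hcx ih

/-- Cancellation of iterates of a left multiplication. -/
theorem cancel_iter (h : ZS z) [Finite T] {c x p : T} (hcx : c * x ≠ z) (hp : c * x = x * p)
    {k N : ℕ} (hk : (fun y => c * y)^[k + 1] x = (fun y => c * y)^[k + 1 + N] x) :
    (fun y => c * y)^[N] x = x := by
  cases N with
  | zero => rfl
  | succ N =>
    obtain ⟨P, hP⟩ := iter_eq_mul hp N
    obtain ⟨a, ha⟩ := iter_eq_mul' c x k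
    have hne := h.iter_ne hcx hp k
    rw [ha] at hne
    obtain ⟨t, ht⟩ := h.stab_l hne
    rw [Function.iterate_add _ (k + 1) (N + 1), Function.comp, hP, iter_mul, ha] at hk
    rw [hP]
    calc x * P = t * (a * x) * P := by rw [ht]
      _ = t * (a * x * P) := by simp only [mul_assoc]
      _ = t * (a * x) := by rw [← hk]
      _ = x := ht

end ZS

end Pool.Agent.Helper87.Birk
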